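import Mathlib

/-!
Degree sequences and prescribed perfect matchings: the crossing numbers of a matching.
-/

set_option autoImplicit false

namespace Pool.Agent.R26.Anti

open Finset

variable {n : ℕ}

/-- the partner function of a perfect matching -/
structure Inv (μ : Fin n → Fin n) : Prop where
  inv : ∀ i, μ (μ i) = i
  ne : ∀ i, μ i ≠ i

theorem Inv.injective {μ : Fin n → Fin n} (h : Inv μ) : Function.Injective μ := fun i j hij => by
  rw [← h.inv i, hij, h.inv j]

/-- number of matching edges between the first `t` vertices and the vertices from `s` on -/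
def c (μ : Fin n → Fin n) (t s : ℕ) : ℕ := #{i : Fin n | i.val < t ∧ s ≤ (μ i).val}

theorem c_symm {μ : Fin n → Fin n} (h : Inv μ) (t s : ℕ) :
    #{i : Fin n | s ≤ i.val ∧ (μ i).val < t} = c μ t s := by
  unfold c
  refine card_bij (fun i _ => μ i) ?_ ?_ ?_
  · intro i hi
    simp only [mem_filter, mem_univ, true_and] at hi ⊢
    rw [h.inv]
    exact ⟨hi.2, hi.1⟩
  · intro i _ j _ hij
    exact h.injective hij
  · intro i hi
    simp only [mem_filter, mem_univ, true_and] at hi
    refine ⟨μ i, ?_, h.inv i⟩
    simp only [mem_filter, mem_univ, true_and, h.inv]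
    exact ⟨hi.2, hi.1⟩

theorem card_lt {s : ℕ} (hs : s ≤ n) : #{j : Fin n | j.val < s} = s := by
  rw [Fin.card_filter_val_lt, min_eq_right hs]

open Classical in
theorem ncard_eq (G : SimpleGraph (Fin n)) (i : Fin n) :
    (G.neighborSet i).ncard = #{j : Fin n | G.Adj i j} := by
  rw [Set.ncard_eq_toFinset_card']
  congr 1
  ext j
  simp

theorem bound (ν : Fin n → Fin n) (hν : Inv ν) (G : SimpleGraph (Fin n)) (d : Fin n → ℕ)
    (hd : ∀ i, (G.neighborSet i).ncard = d i) (hG : ∀ i, G.Adj i (ν i)) (t s : ℕ) (hts : t ≤ s)
    (hs : s ≤ n) :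
    ∑ i : Fin n with i.val < t, d i + (n - s) ≤
      ∑ i : Fin n with s ≤ i.val, d i + t * (s - 1) + c ν t s := by
  classical
  have hcardT : #{i : Fin n | i.val < t} = t := card_lt (hts.trans hs)
  have h1 : ∀ i : Fin n, i.val < t →
      d i ≤ #{j : Fin n | s ≤ j.val ∧ G.Adj i j} + (s - 1) := by
    intro i hi
    rw [← hd, ncard_eq]
    have h2 : #((univ.filter fun j : Fin n => j.val < s).erase i) = s - 1 := by
      rw [card_erase_of_mem (by simp; omega), card_lt hs]
    rw [← h2]
    refine le_trans (card_le_card ?_) (card_union_le _ _)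
    intro j hj
    simp only [mem_union, mem_filter, mem_univ, true_and, mem_erase] at hj ⊢
    by_cases h3 : s ≤ j.val
    · exact Or.inl ⟨h3, hj⟩
    · exact Or.inr ⟨hj.ne', by omega⟩
  have h2 : ∀ i : Fin n, s ≤ i.val →
      #{j : Fin n | j.val < t ∧ G.Adj i j} + (if (ν i).val < t then 0 else 1) ≤ d i := by
    intro i hi
    rw [← hd, ncard_eq]
    split_ifs with h3
    · rw [add_zero]
      exact card_le_card fun j hj => by
        simp only [mem_filter, mem_univ, true_and] at hj ⊢
        exact hj.2
    · rw [← card_singleton (ν i), ← card_union_of_disjoint]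
      · refine card_le_card fun j hj => ?_
        simp only [mem_union, mem_filter, mem_univ, true_and, mem_singleton] at hj ⊢
        rcases hj with h | h
        · exact h.2
        · rw [h]; exact hG i
      · rw [disjoint_singleton_right]
        simp only [mem_filter, mem_univ, true_and]
        exact fun h => h3 h.1
  have h3 : ∑ i : Fin n with i.val < t, d i ≤
      ∑ i : Fin n with i.val < t, #{j : Fin n | s ≤ j.val ∧ G.Adj i j} + t * (s - 1) := by
    calc ∑ i : Fin n with i.val < t, d i
        ≤ ∑ i : Fin n with i.val < t, (#{j : Fin n | s ≤ j.val ∧ G.Adj i j} + (s - 1)) :=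
          sum_le_sum fun i hi => h1 i (by simpa using hi)
      _ = _ := by rw [sum_add_distrib, sum_const, hcardT, smul_eq_mul]
  have h4 : ∑ i : Fin n with s ≤ i.val, #{j : Fin n | j.val < t ∧ G.Adj i j} +
      ∑ i : Fin n with s ≤ i.val, (if (ν i).val < t then 0 else 1) ≤
      ∑ i : Fin n with s ≤ i.val, d i := by
    rw [← sum_add_distrib]
    exact sum_le_sum fun i hi => h2 i (by simpa using hi)
  have h5 : ∑ i : Fin n with i.val < t, #{j : Fin n | s ≤ j.val ∧ G.Adj i j} =
      ∑ i : Fin n with s ≤ i.val, #{j : Fin n | j.val < t ∧ G.Adj i j} := by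
    simp only [card_filter]
    have e1 : ∀ i : Fin n, (if i.val < t then ∑ j : Fin n, (if s ≤ j.val ∧ G.Adj i j then 1 else 0)
        else 0) = ∑ j : Fin n, (if i.val < t ∧ s ≤ j.val ∧ G.Adj i j then 1 else 0) := by
      intro i
      by_cases h : i.val < t <;> simp [h]
    have e2 : ∀ j : Fin n, (if s ≤ j.val then ∑ i : Fin n, (if i.val < t ∧ G.Adj j i then 1 else 0)
        else 0) = ∑ i : Fin n, (if i.val < t ∧ s ≤ j.val ∧ G.Adj i j then 1 else 0) := by
      intro j
      by_cases h : s ≤ j.val <;> simp [h, G.adj_comm]
    rw [sum_filter, sum_filter, sum_congr rfl fun i _ => e1 i, sum_congr rfl fun j _ => e2 j]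
    exact sum_comm
  have h6 : ∑ i : Fin n with s ≤ i.val, (if (ν i).val < t then 0 else 1) + c ν t s = n - s := by
    have e1 : ∑ i : Fin n with s ≤ i.val, (if (ν i).val < t then 0 else 1) =
        #{i : Fin n | s ≤ i.val ∧ ¬ (ν i).val < t} := by
      rw [card_filter, sum_filter]
      refine sum_congr rfl fun i _ => ?_
      by_cases h : s ≤ i.val <;> by_cases h' : (ν i).val < t <;> simp [h, h']
    rw [e1, ← c_symm hν]
    have e2 : #{i : Fin n | s ≤ i.val} = n - s := by
      have e3 : (univ.filter fun i : Fin n => s ≤ i.val) = (univ.filter fun i : Fin n => i.val < s)ᶜ := by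
        ext i; simp
      rw [e3, card_compl, card_lt hs, Fintype.card_fin]
    rw [← e2]
    have e4 := card_filter_add_card_filter_not (s := univ.filter fun i : Fin n => s ≤ i.val)
      (fun i => (ν i).val < t)
    rw [filter_filter, filter_filter] at e4
    omega
  omega

open Classical in
/-- The degrees of the graph which is constructed below. -/
noncomputable def deg (μ : Fin n → Fin n) (t s : ℕ) (R : Finset (Fin n)) (i : Fin n) : ℕ :=
  if i.val + 1 < t then n - 1 else if i.val + 1 = t then s - 1 + c μ t s
  else if i.val < s then s - 1 + (if s ≤ (μ i).val then 1 else 0) - (if i ∈ R then 1 else 0) else t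

theorem construct (M : SimpleGraph (Fin n)) (μ : Fin n → Fin n) (hμ : Inv μ)
    (hM : ∀ i j, M.Adj i j ↔ μ i = j) (t s : ℕ) (ht : 1 ≤ t) (hts : t ≤ s) (hs : s ≤ n)
    (R : Finset (Fin n)) (hR : ∀ i ∈ R, t ≤ i.val ∧ i.val < s) (hev : Even #R)
    (hR2 : ∀ i ∈ R, ∀ j ∈ R, μ i ≠ j) :
    ∃ G : SimpleGraph (Fin n), M ≤ G ∧ ∀ i, (G.neighborSet i).ncard = deg μ t s R i := by
  classical
  obtain ⟨P, hPv, hPm⟩ := (SimpleGraph.IsClique.even_iff_exists_isMatching
    (G := (⊤ : SimpleGraph (Fin n))) (u := (R : Set (Fin n)))
    (fun a _ b _ hab => hab) (Set.toFinite _)).1 (by rwa [Set.ncard_coe_finset])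
  have hPR : ∀ i j, P.Adj i j → i ∈ R ∧ j ∈ R := by
    intro i j h
    have h1 := P.edge_vert h
    have h2 := P.edge_vert h.symm
    rw [hPv] at h1 h2
    exact ⟨h1, h2⟩
  let rel : Fin n → Fin n → Prop := fun i j =>
    (i.val < s ∧ j.val < s ∧ ¬ P.Adj i j) ∨ μ i = j ∨
      (i.val < t ∧ s ≤ j.val ∧ (i.val + 1 ≠ t ∨ (μ j).val < t)) ∨
      (j.val < t ∧ s ≤ i.val ∧ (j.val + 1 ≠ t ∨ (μ i).val < t))
  have hsym : ∀ i j, rel i j → rel j i := by
    rintro i j (⟨h1, h2, h3⟩ | h | h | h)
    · exact Or.inl ⟨h2, h1, fun h => h3 h.symm⟩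
    · right; left; rw [← h, hμ.inv]
    · right; right; right; exact h
    · right; right; left; exact h
  obtain ⟨G, hGa⟩ : ∃ G : SimpleGraph (Fin n), ∀ i j, G.Adj i j ↔ i ≠ j ∧ rel i j :=
    ⟨{ Adj := fun i j => i ≠ j ∧ rel i j
       symm := ⟨fun i j h => ⟨h.1.symm, hsym i j h.2⟩⟩
       loopless := ⟨fun i h => h.1 rfl⟩ }, fun _ _ => Iff.rfl⟩
  refine ⟨G, ?_, ?_⟩
  · intro i j h
    exact (hGa i j).2 ⟨h.ne, Or.inr (Or.inl ((hM i j).1 h))⟩
  · intro i
    rw [ncard_eq]
    have hn : 1 ≤ n := by have := i.2; omega
    unfold deg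
    split_ifs with h1 h2 h3 h4 h5 h6
    · -- all other vertices
      have : (univ.filter fun j : Fin n => G.Adj i j) = univ.erase i := by
        ext j
        simp only [mem_filter, mem_univ, true_and, mem_erase, and_true, hGa]
        constructor
        · rintro ⟨h, _⟩; exact h.symm
        · intro h
          refine ⟨h.symm, ?_⟩
          by_cases hj : j.val < s
          · refine Or.inl ⟨by omega, hj, fun hP => ?_⟩
            have := hR i (hPR i j hP).1
            omega
          · exact Or.inr (Or.inr (Or.inl ⟨by omega, by omega, Or.inl (by omega)⟩))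
      rw [this, card_erase_of_mem (mem_univ i), card_univ, Fintype.card_fin]
    · have : (univ.filter fun j : Fin n => G.Adj i j) =
          ((univ.filter fun j : Fin n => j.val < s).erase i) ∪
            (univ.filter fun j : Fin n => s ≤ j.val ∧ (μ j).val < t) := by
        ext j
        simp only [mem_filter, mem_univ, true_and, mem_erase, mem_union, hGa]
        constructor
        · rintro ⟨h, h3 | h3 | h3 | h3⟩
          · exact Or.inl ⟨h.symm, h3.2.1⟩
          · by_cases hj : j.val < s
            · exact Or.inl ⟨h.symm, hj⟩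
            · refine Or.inr ⟨by omega, ?_⟩
              rw [← h3, hμ.inv]; omega
          · refine Or.inr ⟨h3.2.1, ?_⟩
            rcases h3.2.2 with h4 | h4
            · exact absurd h2 h4
            · exact h4
          · omega
        · rintro (⟨h3, h4⟩ | ⟨h3, h4⟩)
          · refine ⟨h3.symm, Or.inl ⟨by omega, h4, fun hP => ?_⟩⟩
            have := hR i (hPR i j hP).1
            omega
          · refine ⟨fun h => ?_, Or.inr (Or.inr (Or.inl ⟨by omega, h3, Or.inr h4⟩))⟩
            rw [← h] at h3; omega
      rw [this, card_union_of_disjoint, card_erase_of_mem (by simp; omega), card_lt hs, c_symm hμ]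
      rw [disjoint_left]
      intro j hj hj'
      simp only [mem_filter, mem_univ, true_and, mem_erase] at hj hj'
      omega
    · -- i in U, partner ≥ s, i in R
      obtain ⟨w, hw, hwu⟩ := hPm (show i ∈ P.verts by rw [hPv]; exact h5)
      have : (univ.filter fun j : Fin n => G.Adj i j) =
          (((univ.filter fun j : Fin n => j.val < s).erase i).erase w) ∪ {μ i} := by
        ext j
        simp only [mem_filter, mem_univ, true_and, mem_erase, mem_union, mem_singleton, hGa]
        constructor
        · rintro ⟨h, h6 | h6 | h6 | h6⟩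
          · exact Or.inl ⟨fun h7 => h6.2.2 (h7 ▸ hw), h.symm, h6.2.1⟩
          · exact Or.inr h6.symm
          · omega
          · omega
        · rintro (⟨h6, h7, h8⟩ | h6)
          · exact ⟨h7.symm, Or.inl ⟨h3, h8, fun hP => h6 (hwu j hP)⟩⟩
          · rw [h6]
            exact ⟨(hμ.ne i).symm, Or.inr (Or.inl rfl)⟩
      have hws := hR w (hPR i w hw).2
      have hwi : w ≠ i := fun h => by
        rw [h] at hw
        exact (P.adj_sub hw).ne rfl
      rw [this, card_union_of_disjoint, card_erase_of_mem, card_erase_of_mem (by simp; omega),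
        card_lt hs, card_singleton]
      · have := hR i h5
        omega
      · simp only [mem_filter, mem_univ, true_and, mem_erase]
        exact ⟨hwi, hws.2⟩
      · rw [disjoint_singleton_right]
        simp only [mem_filter, mem_univ, true_and, mem_erase, not_and]
        intro _ _
        omega
    · -- i in U, partner ≥ s, i not in R
      have : (univ.filter fun j : Fin n => G.Adj i j) =
          ((univ.filter fun j : Fin n => j.val < s).erase i) ∪ {μ i} := by
        ext j
        simp only [mem_filter, mem_univ, true_and, mem_erase, mem_union, mem_singleton, hGa]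
        constructor
        · rintro ⟨h, h6 | h6 | h6 | h6⟩
          · exact Or.inl ⟨h.symm, h6.2.1⟩
          · exact Or.inr h6.symm
          · omega
          · omega
        · rintro (⟨h7, h8⟩ | h6)
          · exact ⟨h7.symm, Or.inl ⟨h3, h8, fun hP => h5 (hPR i j hP).1⟩⟩
          · rw [h6]
            exact ⟨(hμ.ne i).symm, Or.inr (Or.inl rfl)⟩
      rw [this, card_union_of_disjoint, card_erase_of_mem (by simp; omega),
        card_lt hs, card_singleton]
      · omega
      · rw [disjoint_singleton_right]
        simp only [mem_filter, mem_univ, true_and, mem_erase, not_and]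
        intro _
        omega
    · -- i in U, partner < s, i in R
      obtain ⟨w, hw, hwu⟩ := hPm (show i ∈ P.verts by rw [hPv]; exact h6)
      have : (univ.filter fun j : Fin n => G.Adj i j) =
          (((univ.filter fun j : Fin n => j.val < s).erase i).erase w) := by
        ext j
        simp only [mem_filter, mem_univ, true_and, mem_erase, hGa]
        constructor
        · rintro ⟨h, h7 | h7 | h7 | h7⟩
          · exact ⟨fun h8 => h7.2.2 (h8 ▸ hw), h.symm, h7.2.1⟩
          · refine ⟨fun h8 => ?_, h.symm, by omega⟩
            exact hR2 i h6 w (hPR i w hw).2 (by rw [h7, h8])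
          · omega
          · omega
        · rintro ⟨h6, h7, h8⟩
          exact ⟨h7.symm, Or.inl ⟨h3, h8, fun hP => h6 (hwu j hP)⟩⟩
      have hws := hR w (hPR i w hw).2
      have hwi : w ≠ i := fun h => by
        rw [h] at hw
        exact (P.adj_sub hw).ne rfl
      rw [this, card_erase_of_mem, card_erase_of_mem (by simp; omega), card_lt hs]
      · omega
      · simp only [mem_filter, mem_univ, true_and, mem_erase]
        exact ⟨hwi, hws.2⟩
    · have : (univ.filter fun j : Fin n => G.Adj i j) =
          ((univ.filter fun j : Fin n => j.val < s).erase i) := by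
        ext j
        simp only [mem_filter, mem_univ, true_and, mem_erase, hGa]
        constructor
        · rintro ⟨h, h7 | h7 | h7 | h7⟩
          · exact ⟨h.symm, h7.2.1⟩
          · exact ⟨h.symm, by omega⟩
          · omega
          · omega
        · rintro ⟨h7, h8⟩
          exact ⟨h7.symm, Or.inl ⟨h3, h8, fun hP => h6 (hPR i j hP).1⟩⟩
      rw [this, card_erase_of_mem (by simp; omega), card_lt hs]
      omega
    · -- i in S
      by_cases hmi : (μ i).val < t
      · have : (univ.filter fun j : Fin n => G.Adj i j) = univ.filter fun j : Fin n => j.val < t := by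
          ext j
          simp only [mem_filter, mem_univ, true_and, hGa]
          constructor
          · rintro ⟨h, h7 | h7 | h7 | h7⟩
            · omega
            · omega
            · omega
            · omega
          · intro h
            refine ⟨fun h8 => ?_, Or.inr (Or.inr (Or.inr ⟨h, by omega, Or.inr hmi⟩))⟩
            rw [← h8] at h; omega
        rw [this, card_lt (hts.trans hs)]
      · have : (univ.filter fun j : Fin n => G.Adj i j) =
            (univ.filter fun j : Fin n => j.val < t - 1) ∪ {μ i} := by
          ext j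
          simp only [mem_filter, mem_univ, true_and, mem_union, mem_singleton, hGa]
          constructor
          · rintro ⟨h, h7 | h7 | h7 | h7⟩
            · omega
            · exact Or.inr h7.symm
            · omega
            · left; omega
          · rintro (h | h)
            · refine ⟨fun h8 => ?_, Or.inr (Or.inr (Or.inr ⟨by omega, by omega, Or.inl (by omega)⟩))⟩
              rw [← h8] at h; omega
            · rw [h]
              exact ⟨(hμ.ne i).symm, Or.inr (Or.inl rfl)⟩
        rw [this, card_union_of_disjoint, card_lt (by omega), card_singleton]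
        · omega
        · rw [disjoint_singleton_right]
          simp only [mem_filter, mem_univ, true_and]
          omega

theorem c_le (μ : Fin n → Fin n) (hμ : Inv μ) (t s : ℕ) (hs : s ≤ n) : c μ t s ≤ n - s := by
  rw [← c_symm hμ]
  have e2 : #{i : Fin n | s ≤ i.val} = n - s := by
    have e3 : (univ.filter fun i : Fin n => s ≤ i.val) = (univ.filter fun i : Fin n => i.val < s)ᶜ := by
      ext i; simp
    rw [e3, card_compl, card_lt hs, Fintype.card_fin]
  rw [← e2]
  exact card_le_card fun i hi => by
    simp only [mem_filter, mem_univ, true_and] at hi ⊢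
    exact hi.1

theorem c_succ (μ : Fin n → Fin n) (t s : ℕ) (ht : t < n) :
    c μ (t + 1) s = c μ t s + (if s ≤ (μ ⟨t, ht⟩).val then 1 else 0) := by
  unfold c
  split_ifs with h
  · have e : (univ.filter fun i : Fin n => i.val < t + 1 ∧ s ≤ (μ i).val) =
        insert ⟨t, ht⟩ (univ.filter fun i : Fin n => i.val < t ∧ s ≤ (μ i).val) := by
      ext i
      simp only [mem_filter, mem_univ, true_and, mem_insert, Fin.ext_iff]
      constructor
      · rintro ⟨h1, h2⟩
        by_cases h3 : i.val = t
        · exact Or.inl h3
        · exact Or.inr ⟨by omega, h2⟩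
      · rintro (h1 | h1)
        · have : i = ⟨t, ht⟩ := Fin.ext h1
          rw [this]
          exact ⟨Nat.lt_succ_self t, h⟩
        · exact ⟨by omega, h1.2⟩
    rw [e, card_insert_of_notMem (by simp)]
  · rw [add_zero]
    congr 1
    ext i
    simp only [mem_filter, mem_univ, true_and]
    constructor
    · rintro ⟨h1, h2⟩
      refine ⟨?_, h2⟩
      by_contra h3
      have : i = ⟨t, ht⟩ := Fin.ext (by change i.val = t; omega)
      rw [this] at h2
      exact h h2
    · rintro ⟨h1, h2⟩
      exact ⟨by omega, h2⟩

theorem c_pred (μ : Fin n → Fin n) (hμ : Inv μ) (t s : ℕ) (hs : s < n) :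
    c μ t s = c μ t (s + 1) + (if (μ ⟨s, hs⟩).val < t then 1 else 0) := by
  rw [← c_symm hμ, ← c_symm hμ]
  split_ifs with h
  · have e : (univ.filter fun i : Fin n => s ≤ i.val ∧ (μ i).val < t) =
        insert ⟨s, hs⟩ (univ.filter fun i : Fin n => s + 1 ≤ i.val ∧ (μ i).val < t) := by
      ext i
      simp only [mem_filter, mem_univ, true_and, mem_insert, Fin.ext_iff]
      constructor
      · rintro ⟨h1, h2⟩
        by_cases h3 : i.val = s
        · exact Or.inl h3
        · exact Or.inr ⟨by omega, h2⟩
      · rintro (h1 | h1)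
        · have : i = ⟨s, hs⟩ := Fin.ext h1
          rw [this]
          exact ⟨le_rfl, h⟩
        · exact ⟨by omega, h1.2⟩
    rw [e, card_insert_of_notMem (by simp)]
  · rw [add_zero]
    congr 1
    ext i
    simp only [mem_filter, mem_univ, true_and]
    constructor
    · rintro ⟨h1, h2⟩
      refine ⟨?_, h2⟩
      by_contra h3
      have : i = ⟨s, hs⟩ := Fin.ext (by change i.val = s; omega)
      rw [this] at h2
      exact h h2
    · rintro ⟨h1, h2⟩
      exact ⟨by omega, h2⟩

/-- The degree sequences which can realize `M`. -/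
def R (M : SimpleGraph (Fin n)) : Set (Fin n → ℕ) :=
  {d | Antitone d ∧ (∀ i, 1 ≤ d i) ∧
    ∃ G : SimpleGraph (Fin n), (∀ i, (G.neighborSet i).ncard = d i) ∧ M ≤ G}

theorem not_mem (N : SimpleGraph (Fin n)) (μ ν : Fin n → Fin n) (hν : Inv ν)
    (hN : ∀ i j, N.Adj i j ↔ ν i = j) (t s : ℕ) (ht : 1 ≤ t) (hts : t ≤ s) (hs : s ≤ n)
    (W : Finset (Fin n)) (hc : c ν t s < c μ t s) : deg μ t s W ∉ R N := by
  classical
  rintro ⟨_, _, G, hd, hG⟩
  have h1 := bound ν hν G _ hd (fun i => hG ((hN _ _).2 rfl)) t s hts hs
  have h2 : ∑ i : Fin n with s ≤ i.val, deg μ t s W i = t * (n - s) := by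
    have e2 : #{i : Fin n | s ≤ i.val} = n - s := by
      have e3 : (univ.filter fun i : Fin n => s ≤ i.val) =
          (univ.filter fun i : Fin n => i.val < s)ᶜ := by
        ext i; simp
      rw [e3, card_compl, card_lt hs, Fintype.card_fin]
    rw [sum_congr rfl (g := fun _ => t), sum_const, e2, smul_eq_mul, mul_comm]
    intro i hi
    simp only [mem_filter, mem_univ, true_and] at hi
    unfold deg
    rw [if_neg (by omega), if_neg (by omega), if_neg (by omega)]
  have h3 : ∑ i : Fin n with i.val < t, deg μ t s W i = (t - 1) * (n - 1) + (s - 1 + c μ t s) := by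
    have e1 : (univ.filter fun i : Fin n => i.val < t) =
        insert ⟨t - 1, by omega⟩ (univ.filter fun i : Fin n => i.val < t - 1) := by
      ext i
      simp only [mem_filter, mem_univ, true_and, mem_insert, Fin.ext_iff]
      omega
    rw [e1, sum_insert (by simp)]
    rw [sum_congr rfl (g := fun _ => n - 1), sum_const, card_lt (by omega), smul_eq_mul, add_comm]
    · congr 1
      unfold deg
      rw [if_neg (by change ¬ (t - 1 + 1 < t); omega), if_pos (by change t - 1 + 1 = t; omega)]
    · intro i hi
      simp only [mem_filter, mem_univ, true_and] at hi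
      unfold deg
      rw [if_pos (by omega)]
  rw [h2, h3] at h1
  obtain ⟨k, rfl⟩ := Nat.exists_eq_add_of_le hs
  obtain ⟨t', rfl⟩ : ∃ t', t = t' + 1 := ⟨t - 1, by omega⟩
  obtain ⟨s', rfl⟩ : ∃ s', s = s' + 1 := ⟨s - 1, by omega⟩
  have e1 : s' + 1 + k - (s' + 1) = k := by omega
  have e2 : s' + 1 + k - 1 = s' + k := by omega
  have e3 : s' + 1 - 1 = s' := by omega
  have e4 : t' + 1 - 1 = t' := by omega
  rw [e1, e2, e3, e4] at h1
  nlinarith

theorem mem (M : SimpleGraph (Fin n)) (μ : Fin n → Fin n) (hμ : Inv μ)
    (hM : ∀ i j, M.Adj i j ↔ μ i = j) (t s : ℕ) (hts : t ≤ s) (hs : s ≤ n) (hc : 0 < c μ t s)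
    (hw : s ≤ t + 1 ∨ ∀ i : Fin n, i.val + 1 = s → (μ i).val < s) :
    ∃ W, deg μ t s W ∈ R M := by
  classical
  have ht : 1 ≤ t := by
    by_contra h
    have : t = 0 := by omega
    subst this
    unfold c at hc
    simp at hc
  have hcn := c_le μ hμ t s hs
  -- the set of vertices which lose one
  obtain ⟨W, hW1, hW2, hW3, hW4⟩ : ∃ W : Finset (Fin n), (∀ i ∈ W, t ≤ i.val ∧ i.val < s) ∧
      Even #W ∧ (∀ i ∈ W, ∀ j ∈ W, μ i ≠ j) ∧
      (s ≤ t + 1 ∧ W = ∅ ∨ (∀ i : Fin n, i.val + 1 = s → (μ i).val < s) ∧ t + 2 ≤ s ∧
        ∀ i : Fin n, t ≤ i.val → i.val + 1 < s → (i ∈ W ↔ s ≤ (μ i).val)) := by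
    by_cases hst : s ≤ t + 1
    · exact ⟨∅, by simp, by simp, by simp, Or.inl ⟨hst, rfl⟩⟩
    · have hw' := hw.resolve_left hst
      let U : Finset (Fin n) := univ.filter fun i => (t ≤ i.val ∧ i.val < s) ∧ s ≤ (μ i).val
      have hU : ∀ i, i ∈ U ↔ (t ≤ i.val ∧ i.val < s) ∧ s ≤ (μ i).val := fun i => by simp [U]
      rcases Nat.even_or_odd #U with he | ho
      · refine ⟨U, fun i hi => ((hU i).1 hi).1, he, ?_, Or.inr ⟨hw', by omega, ?_⟩⟩
        · intro i hi j hj h
          have h1 := ((hU i).1 hi).2
          have h2 := ((hU j).1 hj).1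
          rw [h] at h1
          omega
        · intro i h1 h2
          rw [hU]
          constructor
          · exact fun h => h.2
          · exact fun h => ⟨⟨h1, by omega⟩, h⟩
      · have hwU : (⟨s - 1, by omega⟩ : Fin n) ∉ U := by
          intro h
          have h1 := ((hU _).1 h).2
          have h2 := hw' ⟨s - 1, by omega⟩ (by change s - 1 + 1 = s; omega)
          omega
        refine ⟨insert ⟨s - 1, by omega⟩ U, ?_, ?_, ?_, Or.inr ⟨hw', by omega, ?_⟩⟩
        · intro i hi
          rw [mem_insert] at hi
          rcases hi with rfl | hi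
          · change t ≤ s - 1 ∧ s - 1 < s
            omega
          · exact ((hU i).1 hi).1
        · rw [card_insert_of_notMem hwU]
          exact ho.add_one
        · intro i hi j hj h
          rw [mem_insert] at hi hj
          rcases hi with hi | hi <;> rcases hj with hj | hj
          · rw [hi, hj] at h
            exact hμ.ne _ h
          · have h1 := ((hU j).1 hj).2
            rw [← h, hμ.inv, hi] at h1
            change s ≤ s - 1 at h1
            omega
          · have h1 := ((hU i).1 hi).2
            rw [h, hj] at h1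
            change s ≤ s - 1 at h1
            omega
          · have h1 := ((hU i).1 hi).2
            have h2 := ((hU j).1 hj).1
            rw [h] at h1
            omega
        · intro i h1 h2
          rw [mem_insert, hU]
          constructor
          · rintro (h | h)
            · rw [h] at h2
              change s - 1 + 1 < s at h2
              omega
            · exact h.2
          · exact fun h => Or.inr ⟨⟨h1, by omega⟩, h⟩
  obtain ⟨G, hG1, hG2⟩ := construct M μ hμ hM t s ht hts hs W hW1 hW2 hW3
  refine ⟨W, ?_, ?_, G, hG2, hG1⟩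
  · intro i j hij
    have hij' : i.val ≤ j.val := hij
    have hi := i.2
    have hj := j.2
    rcases hW4 with ⟨h1, h2⟩ | ⟨h1, h2, h3⟩
    · unfold deg
      rw [h2]
      simp only [notMem_empty, if_false]
      by_cases hij2 : i = j
      · rw [hij2]
      · have hij3 : i.val ≠ j.val := fun h => hij2 (Fin.ext h)
        split_ifs <;> omega
    · have key : ∀ i : Fin n, t ≤ i.val → i.val < s → t ≤ deg μ t s W i ∧ deg μ t s W i ≤ s - 1 ∧
          (i.val + 1 < s → deg μ t s W i = s - 1) := by
        intro i h4 h5
        unfold deg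
        rw [if_neg (by omega), if_neg (by omega), if_pos h5]
        by_cases h6 : i.val + 1 < s
        · have h7 := h3 i h4 h6
          by_cases h8 : s ≤ (μ i).val
          · rw [if_pos h8, if_pos (h7.2 h8)]; omega
          · rw [if_neg h8, if_neg (fun h => h8 (h7.1 h))]; omega
        · have h7 := h1 i (by omega)
          rw [if_neg (by omega)]
          split_ifs <;> omega
      by_cases hjs : s ≤ j.val
      · have e1 : deg μ t s W j = t := by
          unfold deg
          rw [if_neg (by omega), if_neg (by omega), if_neg (by omega)]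
        rw [e1]
        by_cases his : s ≤ i.val
        · unfold deg
          rw [if_neg (by omega), if_neg (by omega), if_neg (by omega)]
        · by_cases hit : t ≤ i.val
          · exact (key i hit (by omega)).1
          · unfold deg
            split_ifs <;> omega
      · by_cases hjt : t ≤ j.val
        · have e1 := key j hjt (by omega)
          by_cases hit : t ≤ i.val
          · have e2 := key i hit (by omega)
            by_cases hi1 : i.val + 1 < s
            · rw [e2.2.2 hi1]
              exact e1.2.1
            · have : i = j := Fin.ext (by omega)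
              rw [this]
          · refine e1.2.1.trans ?_
            unfold deg
            split_ifs <;> omega
        · unfold deg
          split_ifs <;> omega
  · intro i
    have hi := i.2
    rcases hW4 with ⟨h1, h2⟩ | ⟨h1, h2, h3⟩
    · unfold deg
      rw [h2]
      simp only [notMem_empty, if_false]
      split_ifs <;> omega
    · unfold deg
      split_ifs <;> omega

theorem main (M N : SimpleGraph (Fin n)) (μ ν : Fin n → Fin n) (hμ : Inv μ) (hν : Inv ν)
    (hM : ∀ i j, M.Adj i j ↔ μ i = j) (hN : ∀ i j, N.Adj i j ↔ ν i = j)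
    (h1 : R M ⊆ R N) (h2 : R N ⊆ R M) : μ = ν := by
  classical
  -- the crossing numbers agree
  have key : ∀ u t s, s = t + u → s ≤ n → c μ t s = c ν t s := by
    intro u
    induction u using Nat.strong_induction_on with
    | _ u ih =>
      -- one direction
      have step : ∀ (M N : SimpleGraph (Fin n)) (μ ν : Fin n → Fin n), Inv μ → Inv ν →
          (∀ i j, M.Adj i j ↔ μ i = j) → (∀ i j, N.Adj i j ↔ ν i = j) → R M ⊆ R N →
          (∀ m < u, ∀ t s, s = t + m → s ≤ n → c μ t s = c ν t s) →
          ∀ t s, s = t + u → s ≤ n → c μ t s ≤ c ν t s := by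
        intro M N μ ν hμ hν hM hN h1 ih t s hst hs
        by_contra hlt
        push Not at hlt
        have ht : 1 ≤ t := by
          by_contra h
          have : t = 0 := by omega
          subst this
          unfold c at hlt
          simp at hlt
        have hcn := c_le μ hμ t s hs
        have hw : s ≤ t + 1 ∨ ∀ i : Fin n, i.val + 1 = s → (μ i).val < s := by
          by_cases hst2 : s ≤ t + 1
          · exact Or.inl hst2
          · right
            intro i hi
            have htn : t < n := by omega
            have A := ih (u - 1) (by omega) (t + 1) s (by omega) hs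
            have C := ih (u - 2) (by omega) (t + 1) (s - 1) (by omega) (by omega)
            have B := ih (u - 1) (by omega) t (s - 1) (by omega) (by omega)
            obtain ⟨s', rfl⟩ : ∃ s', s = s' + 1 := ⟨s - 1, by omega⟩
            rw [Nat.add_sub_cancel] at B C
            rw [c_succ μ t _ htn, c_succ ν t _ htn] at A C
            rw [c_pred μ hμ t s' (by omega), c_pred ν hν t s' (by omega)] at B C
            have hi2 : i = ⟨s', by omega⟩ := Fin.ext (by change i.val = s'; omega)
            have hmt : (μ ⟨t, htn⟩).val = s' := by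
              split_ifs at A B C <;> omega
            have hmt2 : μ ⟨t, htn⟩ = i := by rw [hi2]; exact Fin.ext hmt
            rw [← hmt2, hμ.inv]
            change t < s' + 1
            omega
        obtain ⟨W, hW⟩ := mem M μ hμ hM t s (by omega) hs (by omega) hw
        exact not_mem N μ ν hν hN t s ht (by omega) hs W hlt (h1 hW)
      intro t s hst hs
      exact le_antisymm (step M N μ ν hμ hν hM hN h1 ih t s hst hs)
        (step N M ν μ hν hμ hN hM h2 (fun m hm t s h3 h4 => (ih m hm t s h3 h4).symm) t s hst hs)
  have up : ∀ (μ ν : Fin n → Fin n), (∀ u t s, s = t + u → s ≤ n → c μ t s = c ν t s) →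
      ∀ i, i.val < (μ i).val → ν i = μ i := by
    intro μ ν key i hi
    have hj := (μ i).2
    have e1 := key ((μ i).val - (i.val + 1)) (i.val + 1) (μ i).val (by omega) (by omega)
    have e2 := key ((μ i).val - i.val) i.val (μ i).val (by omega) (by omega)
    have e3 := key ((μ i).val + 1 - (i.val + 1)) (i.val + 1) ((μ i).val + 1) (by omega) (by omega)
    have e4 := key ((μ i).val + 1 - i.val) i.val ((μ i).val + 1) (by omega) (by omega)
    rw [c_succ μ i.val _ i.2, c_succ ν i.val _ i.2] at e1 e3
    apply Fin.ext
    simp only [Fin.eta] at e1 e3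
    split_ifs at e1 e3 <;> omega
  funext i
  rcases lt_trichotomy i.val (μ i).val with h | h | h
  · exact (up μ ν key i h).symm
  · exact absurd (Fin.ext h).symm (hμ.ne i)
  · have h3 := up μ ν key (μ i) (by rw [hμ.inv]; exact h)
    rw [hμ.inv] at h3
    rw [← h3, hν.inv, h3]

end Pool.Agent.R26.Anti
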