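import Pool.Agent.R26.Data111

set_option autoImplicit false

namespace Pool.Agent.R26.Check111

open Pool.Agent.R26.Mask Pool.Agent.R26.Code Pool.Agent.R26.Data111

/-- The masks are correct. -/
def okMasks : List ℕ → List ℕ → List ℕ → Bool
  | a :: A, b :: B, x :: X =>
    Nat.beq (maskC (fun m => Nat.beq (p m a) b) chunks) x && okMasks A B X
  | [], [], [] => true
  | _, _, _ => false

/-- The third edge. -/
def inner2 (u x : ℕ) : List ℕ → List ℕ → Bool
  | e :: E, y :: X =>
    (bif Nat.beq (Nat.land u e) 0 then exactly 6 (Nat.land x y) else true) && inner2 u x E X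
  | _, _ => true

/-- The second edge. -/
def inner1 (u x : ℕ) : List ℕ → List ℕ → Bool
  | e :: E, y :: X =>
    (bif Nat.beq (Nat.land u e) 0 then inner2 (Nat.lor u e) (Nat.land x y) E X else true) &&
      inner1 u x E X
  | _, _ => true

/-- The first edge. -/
def outer : List ℕ → List ℕ → Bool
  | e :: E, x :: X => inner1 e x E X && outer E X
  | _, _ => true

lemma all_valid : (chunks.all fun l => l.all valid) = true := by decide +kernel

lemma chain1 : ∀ l ∈ chunks, l.IsChain (· < ·) := by decide +kernel

lemma chain2 : chunks.IsChain fun l₁ l₂ => l₁.getLastD 0 < l₂.headD 0 := by decide +kernel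

end Pool.Agent.R26.Check111
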