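import Pool.Agent.R26.Check111

set_option autoImplicit false

namespace Pool.Agent.R26.Check111

open Pool.Agent.R26.Mask Pool.Agent.R26.Code Pool.Agent.R26.Data111

lemma triples : outer edgeE masks = true := by decide +kernel

end Pool.Agent.R26.Check111
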