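import Pool.Agent.R26.Check111b
import Pool.Agent.R26.Check111c

/-!
# Every three disjoint edges are in exactly six of the matchings
-/

set_option autoImplicit false

namespace Pool.Agent.R26.Check111

open Pool.Agent.R26.Mask Pool.Agent.R26.Code Pool.Agent.R26.Data111

lemma okMasks_spec (A B X : List ℕ) (h : okMasks A B X = true) :
    A.length = X.length ∧ B.length = X.length ∧ ∀ i (hA : i < A.length) (hB : i < B.length)
      (hX : i < X.length), mask (fun m => Nat.beq (p m A[i]) B[i]) chunks.flatten = X[i] := by
  induction A generalizing B X with
  | nil =>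
    cases B with
    | nil =>
      cases X with
      | nil => simp
      | cons x X => simp [okMasks] at h
    | cons b B => cases X <;> simp [okMasks] at h
  | cons a A ih =>
    cases B with
    | nil => cases X <;> simp [okMasks] at h
    | cons b B =>
      cases X with
      | nil => simp [okMasks] at h
      | cons x X =>
        rw [okMasks, Bool.and_eq_true] at h
        obtain ⟨h1, h2⟩ := h
        obtain ⟨h3, h4, h5⟩ := ih B X h2
        refine ⟨by simp [h3], by simp [h4], ?_⟩
        intro i hA hB hX
        cases i with
        | zero =>
          have := Nat.eq_of_beq_eq_true h1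
          rw [maskC_eq] at this
          simpa using this
        | succ i =>
          have := h5 i (by simpa using hA) (by simpa using hB) (by simpa using hX)
          simpa using this

lemma inner2_spec (u x : ℕ) (E X : List ℕ) (h : inner2 u x E X = true) :
    ∀ i (hE : i < E.length) (hX : i < X.length), u &&& E[i] = 0 →
      exactly 6 (x &&& X[i]) = true := by
  induction E generalizing X with
  | nil => intro i hE; simp at hE
  | cons e E ih =>
    cases X with
    | nil => intro i hE hX; simp at hX
    | cons y X =>
      rw [inner2, Bool.and_eq_true] at h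
      obtain ⟨h1, h2⟩ := h
      intro i hE hX h0
      cases i with
      | zero =>
        have h0' : Nat.land u e = 0 := h0
        rw [h0'] at h1
        exact h1
      | succ i => exact ih X h2 i (by simpa using hE) (by simpa using hX) h0

lemma inner1_spec (u x : ℕ) (E X : List ℕ) (h : inner1 u x E X = true) :
    ∀ i j (hij : i < j) (hE : j < E.length) (hX : j < X.length), u &&& E[i] = 0 →
      (u ||| E[i]) &&& E[j] = 0 → exactly 6 ((x &&& X[i]) &&& X[j]) = true := by
  induction E generalizing X with
  | nil => intro i j hij hE; simp at hE
  | cons e E ih =>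
    cases X with
    | nil => intro i j hij hE hX; simp at hX
    | cons y X =>
      rw [inner1, Bool.and_eq_true] at h
      obtain ⟨h1, h2⟩ := h
      intro i j hij hE hX h0 h0'
      cases j with
      | zero => omega
      | succ j =>
        cases i with
        | zero =>
          have h3 : Nat.land u e = 0 := h0
          rw [h3] at h1
          exact inner2_spec _ _ E X h1 j (by simpa using hE) (by simpa using hX) h0'
        | succ i =>
          exact ih X h2 i j (by omega) (by simpa using hE) (by simpa using hX) h0 h0'

lemma outer_spec (E X : List ℕ) (h : outer E X = true) :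
    ∀ i j k (hij : i < j) (hjk : j < k) (hE : k < E.length) (hX : k < X.length),
      E[i] &&& E[j] = 0 → (E[i] ||| E[j]) &&& E[k] = 0 →
        exactly 6 ((X[i] &&& X[j]) &&& X[k]) = true := by
  induction E generalizing X with
  | nil => intro i j k _ _ hE; simp at hE
  | cons e E ih =>
    cases X with
    | nil => intro i j k _ _ hE hX; simp at hX
    | cons y X =>
      rw [outer, Bool.and_eq_true] at h
      obtain ⟨h1, h2⟩ := h
      intro i j k hij hjk hE hX h0 h0'
      cases k with
      | zero => omega
      | succ k =>
        cases j with
        | zero => omega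
        | succ j =>
          cases i with
          | zero =>
            exact inner1_spec _ _ E X h1 j k (by omega) (by simpa using hE) (by simpa using hX)
              h0 h0'
          | succ i =>
            exact ih X h2 i j k (by omega) (by omega) (by simpa using hE) (by simpa using hX) h0 h0'

lemma lenE : edgeE.length = 66 := by decide +kernel
lemma lenA : edgeA.length = 66 := by decide +kernel
lemma lenB : edgeB.length = 66 := by decide +kernel
lemma lenM : masks.length = 66 := by
  rw [← (okMasks_spec _ _ _ masks_ok).1, lenA]

/-- The list of all codes. -/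
def codes : List ℕ := chunks.flatten

/-- The number of matchings in the list which contain the three edges. -/
lemma count_idx (i j k : ℕ) (hi : i < 66) (hj : j < 66) (hk : k < 66) (hij : i < j) (hjk : j < k)
    (h1 : edgeE.getD i 0 &&& edgeE.getD j 0 = 0)
    (h2 : (edgeE.getD i 0 ||| edgeE.getD j 0) &&& edgeE.getD k 0 = 0) :
    codes.countP (fun m => (Nat.beq (p m (edgeA.getD i 0)) (edgeB.getD i 0) &&
      Nat.beq (p m (edgeA.getD j 0)) (edgeB.getD j 0)) &&
      Nat.beq (p m (edgeA.getD k 0)) (edgeB.getD k 0)) = 6 := by
  obtain ⟨-, -, hm⟩ := okMasks_spec _ _ _ masks_ok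
  have hE : ∀ l, l < 66 → l < edgeE.length := fun l hl => by rw [lenE]; exact hl
  have hA : ∀ l, l < 66 → l < edgeA.length := fun l hl => by rw [lenA]; exact hl
  have hB : ∀ l, l < 66 → l < edgeB.length := fun l hl => by rw [lenB]; exact hl
  have hM : ∀ l, l < 66 → l < masks.length := fun l hl => by rw [lenM]; exact hl
  rw [List.getD_eq_getElem _ _ (hE i hi), List.getD_eq_getElem _ _ (hE j hj)] at h1
  rw [List.getD_eq_getElem _ _ (hE i hi), List.getD_eq_getElem _ _ (hE j hj),
    List.getD_eq_getElem _ _ (hE k hk)] at h2
  have h3 := outer_spec _ _ triples i j k hij hjk (hE k hk) (hM k hk) h1 h2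
  rw [← hm i (hA i hi) (hB i hi) (hM i hi), ← hm j (hA j hj) (hB j hj) (hM j hj),
    ← hm k (hA k hk) (hB k hk) (hM k hk), mask_and, mask_and] at h3
  rw [List.getD_eq_getElem _ _ (hA i hi), List.getD_eq_getElem _ _ (hA j hj),
    List.getD_eq_getElem _ _ (hA k hk), List.getD_eq_getElem _ _ (hB i hi),
    List.getD_eq_getElem _ _ (hB j hj), List.getD_eq_getElem _ _ (hB k hk)]
  exact countP_of_exactly _ _ _ h3

lemma codes_valid : ∀ m ∈ codes, valid m = true := by
  intro m hm
  unfold codes at hm
  rw [List.mem_flatten] at hm
  obtain ⟨l, hl, hm⟩ := hm
  have := all_valid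
  rw [List.all_eq_true] at this
  have := this l hl
  rw [List.all_eq_true] at this
  exact this m hm

lemma codes_nodup : codes.Nodup := by
  apply nodup_of_chain
  unfold codes
  rw [List.isChain_flatten]
  · refine ⟨chain1, ?_⟩
    refine chain2.imp ?_
    intro l₁ l₂ h x hx y hy
    rw [Option.mem_def] at hx hy
    rw [List.getLastD_eq_getLast?, List.headD_eq_head?_getD, hx, hy] at h
    exact h
  · decide +kernel

end Pool.Agent.R26.Check111
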