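import Pool.Agent.R26.Mask

/-!
# Perfect matchings of `K_12` encoded by numbers

The digit `i` in base 16 of the code is the partner of `i`.
-/

set_option autoImplicit false

namespace Pool.Agent.R26.Code

open Finset

/-- The partner of `i`. -/
def p (m i : ℕ) : ℕ := (m >>> (4 * i)) % 16

/-- The code is valid. -/
def valid (m : ℕ) : Bool :=
  Nat.blt m (16 ^ 12) &&
    (List.range 12).all fun i =>
      Nat.blt (p m i) 12 && (Nat.beq (p m (p m i)) i && !(Nat.beq (p m i) i))

/-- The partner as an element of `Fin 12`. -/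
def pf (m : ℕ) (i : Fin 12) : Fin 12 := ⟨p m i.1 % 12, Nat.mod_lt _ (by norm_num)⟩

/-- The set of edges of the matching with the given code. -/
def toM (m : ℕ) : Finset (Sym2 (Fin 12)) := univ.image fun i : Fin 12 => s(i, pf m i)

lemma valid_lt {m : ℕ} (h : valid m = true) : m < 16 ^ 12 := by
  rw [valid, Bool.and_eq_true] at h
  have h1 := h.1
  rw [Nat.blt_eq] at h1
  exact h1

lemma valid_spec {m : ℕ} (h : valid m = true) (i : ℕ) (hi : i < 12) :
    p m i < 12 ∧ p m (p m i) = i ∧ p m i ≠ i := by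
  rw [valid, Bool.and_eq_true, List.all_eq_true] at h
  have h1 := h.2 i (List.mem_range.2 hi)
  rw [Bool.and_eq_true, Bool.and_eq_true, Bool.not_eq_true', Nat.blt_eq, Nat.beq_eq] at h1
  refine ⟨h1.1, h1.2.1, fun he => ?_⟩
  have h2 := h1.2.2
  rw [he] at h2
  simp at h2

lemma pf_val {m : ℕ} (h : valid m = true) (i : Fin 12) : (pf m i).1 = p m i.1 :=
  Nat.mod_eq_of_lt (valid_spec h i.1 i.2).1

lemma pf_pf {m : ℕ} (h : valid m = true) (i : Fin 12) : pf m (pf m i) = i := by
  apply Fin.ext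
  rw [pf_val h, pf_val h, (valid_spec h i.1 i.2).2.1]

lemma pf_ne {m : ℕ} (h : valid m = true) (i : Fin 12) : pf m i ≠ i := by
  intro he
  have := congrArg Fin.val he
  rw [pf_val h] at this
  exact (valid_spec h i.1 i.2).2.2 this

lemma mem_toM {m : ℕ} (h : valid m = true) (i j : Fin 12) : s(i, j) ∈ toM m ↔ pf m i = j := by
  unfold toM
  rw [mem_image]
  constructor
  · rintro ⟨k, -, hk⟩
    rcases Sym2.eq_iff.1 hk with ⟨h1, h2⟩ | ⟨h1, h2⟩
    · subst h1; exact h2
    · subst h1; rw [← h2, pf_pf h]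
  · rintro rfl
    exact ⟨i, mem_univ _, rfl⟩

lemma isPM {m : ℕ} (h : valid m = true) :
    (∀ e ∈ toM m, ¬ e.IsDiag) ∧ ∀ v, ∃! e, e ∈ toM m ∧ v ∈ e := by
  constructor
  · intro e he
    unfold toM at he
    rw [mem_image] at he
    obtain ⟨k, -, rfl⟩ := he
    rw [Sym2.mk_isDiag_iff]
    exact (pf_ne h k).symm
  · intro v
    refine ⟨s(v, pf m v), ⟨(mem_toM h _ _).2 rfl, Sym2.mem_mk_left _ _⟩, ?_⟩
    rintro e ⟨he, hv⟩
    obtain ⟨w, rfl⟩ := hv
    rw [mem_toM h] at he
    rw [he]

lemma code_eq {m m' : ℕ} (h : valid m = true) (h' : valid m' = true)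
    (hp : ∀ i < 12, p m i = p m' i) : m = m' := by
  apply Nat.eq_of_testBit_eq
  intro k
  by_cases hk : k < 48
  · have h1 := hp (k / 4) (by omega)
    have h2 := congrArg (fun x => x.testBit (k % 4)) h1
    simp only [p, show (16 : ℕ) = 2 ^ 4 by norm_num, Nat.testBit_mod_two_pow,
      Nat.testBit_shiftRight] at h2
    have h3 : k % 4 < 4 := Nat.mod_lt _ (by norm_num)
    have h4 : 4 * (k / 4) + k % 4 = k := Nat.div_add_mod k 4
    simpa [h3, h4] using h2
  · have h1 : (16 : ℕ) ^ 12 ≤ 2 ^ k := by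
      calc (16 : ℕ) ^ 12 = 2 ^ 48 := by norm_num
        _ ≤ 2 ^ k := Nat.pow_le_pow_right (by norm_num) (by omega)
    rw [Nat.testBit_eq_false_of_lt (lt_of_lt_of_le (valid_lt h) h1),
      Nat.testBit_eq_false_of_lt (lt_of_lt_of_le (valid_lt h') h1)]

lemma toM_inj {m m' : ℕ} (h : valid m = true) (h' : valid m' = true) (he : toM m = toM m') :
    m = m' := by
  apply code_eq h h'
  intro i hi
  have h1 : s((⟨i, hi⟩ : Fin 12), pf m ⟨i, hi⟩) ∈ toM m' := by
    rw [← he, mem_toM h]
  rw [mem_toM h'] at h1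
  have h2 := congrArg Fin.val h1
  rw [pf_val h, pf_val h'] at h2
  exact h2.symm

/-- The matchings with codes in a list. -/
noncomputable def fam (l : List ℕ) : Finset (Finset (Sym2 (Fin 12))) := (l.map toM).toFinset

lemma card_filter (l : List ℕ) (hl : l.Nodup) (hv : ∀ m ∈ l, valid m = true)
    (P : Finset (Sym2 (Fin 12)) → Prop) [DecidablePred P] (q : ℕ → Bool)
    (hq : ∀ m ∈ l, (q m = true ↔ P (toM m))) :
    ((fam l).filter P).card = l.countP q := by
  have hnd : (l.map toM).Nodup := by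
    refine List.Nodup.map_on ?_ hl
    intro x hx y hy hxy
    exact toM_inj (hv x hx) (hv y hy) hxy
  have h1 : (fam l).filter P = ((l.map toM).filter (fun m => decide (P m))).toFinset := by
    ext m
    simp [fam]
  rw [h1, List.toFinset_card_of_nodup (hnd.filter _), ← List.countP_eq_length_filter,
    List.countP_map]
  apply List.countP_congr
  intro m hm
  simp [hq m hm]

lemma nodup_of_chain (l : List ℕ) (h : l.IsChain (· < ·)) : l.Nodup := by
  rw [List.isChain_iff_pairwise] at h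
  exact h.imp (fun hab => Nat.ne_of_lt hab)

end Pool.Agent.R26.Code
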