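import Mathlib

/-!
Abstract part of the mod 4 count: `V` (vertices), `E` (edges, with the two ends `p e`, `q e`), `F` (faces),
`d f e` says that `e` is on the boundary of `f`.  We count the bijections `σ : E ≃ V ⊕ F` which send each
edge to an incident vertex or face.
-/

set_option autoImplicit false

namespace Pool.Agent.R26.Hole

open Finset

section lin

variable {V E : Type} [Fintype V] [Fintype E] [DecidableEq V] [DecidableEq E]

/-- The incidence map over `F_2` for the edges outside `S`. -/
def lin (p q : E → V) (S : Finset E) : ({e // e ∉ S} → ZMod 2) →+ (V → ZMod 2) where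
  toFun x v := ∑ e : {e // e ∉ S},
    x e * ((if p e.1 = v then 1 else 0) + (if q e.1 = v then 1 else 0))
  map_zero' := by ext; simp
  map_add' x y := by ext v; simp [add_mul, sum_add_distrib]

theorem lin_apply (p q : E → V) (S : Finset E) (x : {e // e ∉ S} → ZMod 2) (v : V) :
    lin p q S x v = ∑ e : {e // e ∉ S},
      x e * ((if p e.1 = v then 1 else 0) + (if q e.1 = v then 1 else 0)) := rfl

/-- The right hand side. -/
def tgt (p : E → V) (S : Finset E) (v : V) : ZMod 2 :=
  1 + ∑ e : {e // e ∉ S}, if p e.1 = v then 1 else 0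

/-- The number of orientations of the edges outside of `S` with all indegrees one. -/
def X (p q : E → V) (S : Finset E) : ℕ :=
  #{x : {e // e ∉ S} → ZMod 2 | lin p q S x = tgt p S}

/-- sum of the entries -/
def sm (V : Type) [Fintype V] : (V → ZMod 2) →+ ZMod 2 where
  toFun y := ∑ v, y v
  map_zero' := by simp
  map_add' x y := by simp [sum_add_distrib]

theorem sm_lin (p q : E → V) (S : Finset E) (x : {e // e ∉ S} → ZMod 2) :
    sm V (lin p q S x) = 0 := by
  change ∑ v, ∑ e : {e // e ∉ S},
    x e * ((if p e.1 = v then 1 else 0) + (if q e.1 = v then 1 else 0)) = 0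
  rw [sum_comm]
  refine sum_eq_zero fun e _ => ?_
  rw [← mul_sum, sum_add_distrib]
  simp only [sum_ite_eq, mem_univ, if_true]
  have : (1 : ZMod 2) + 1 = 0 := by decide
  rw [this, mul_zero]

theorem sm_tgt (p : E → V) (S : Finset E) (hS : Fintype.card {e // e ∉ S} = Fintype.card V) :
    sm V (tgt p S) = 0 := by
  change ∑ v, (1 + ∑ e : {e // e ∉ S}, if p e.1 = v then (1 : ZMod 2) else 0) = 0
  rw [sum_add_distrib, sum_comm]
  simp only [sum_ite_eq, mem_univ, if_true, sum_const, card_univ, hS, nsmul_eq_mul, mul_one]
  rw [← two_mul]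
  have : (2 : ZMod 2) = 0 := by decide
  rw [this, zero_mul]

theorem two_mul_card_ker_sm [Nonempty V] : Nat.card (sm V).ker * 2 = 2 ^ Fintype.card V := by
  have h1 : Function.Surjective (sm V) := by
    intro t
    obtain ⟨v⟩ := ‹Nonempty V›
    refine ⟨Pi.single v t, ?_⟩
    change ∑ w, Pi.single v t w = t
    simp
  have h2 := AddSubgroup.card_mul_index (sm V).ker
  rw [AddSubgroup.index_ker, AddMonoidHom.range_eq_top.2 h1] at h2
  simpa using h2

theorem X_fact [Nonempty V] (p q : E → V) (S : Finset E)
    (hS : Fintype.card {e // e ∉ S} = Fintype.card V) :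
    Even (X p q S) ∧ (Nat.card (lin p q S).ker ≤ 2 → X p q S = 2) ∧
      (Nat.card (lin p q S).ker > 2 → 4 ∣ X p q S) := by
  classical
  have h1 : (lin p q S).range ≤ (sm V).ker := by
    rintro _ ⟨x, rfl⟩
    exact sm_lin p q S x
  have h2 : Nat.card (lin p q S).ker * Nat.card (lin p q S).range = 2 ^ Fintype.card V := by
    have := AddSubgroup.card_mul_index (lin p q S).ker
    rw [AddSubgroup.index_ker] at this
    rw [this]
    simp [hS]
  have h3 := two_mul_card_ker_sm (V := V)
  obtain ⟨k, hk⟩ := AddSubgroup.card_dvd_of_le h1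
  have hr : 0 < Nat.card (lin p q S).range := Nat.card_pos
  have hker : Nat.card (lin p q S).ker = 2 * k := by
    have : Nat.card (lin p q S).ker * Nat.card (lin p q S).range =
        (2 * k) * Nat.card (lin p q S).range := by
      rw [h2, ← h3, hk]; ring
    exact Nat.eq_of_mul_eq_mul_right hr this
  have hX : X p q S = if tgt p S ∈ (lin p q S).range then Nat.card (lin p q S).ker else 0 := by
    split_ifs with h
    · obtain ⟨x0, hx0⟩ := h
      rw [Nat.card_eq_fintype_card, Fintype.card_subtype]
      unfold X
      refine card_bij' (fun x _ => x - x0) (fun x _ => x + x0) ?_ ?_ ?_ ?_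
      · intro x hx
        simp only [mem_filter, mem_univ, true_and] at hx ⊢
        rw [AddMonoidHom.mem_ker, map_sub, hx, hx0, sub_self]
      · intro x hx
        simp only [mem_filter, mem_univ, true_and, AddMonoidHom.mem_ker] at hx ⊢
        rw [map_add, hx, hx0, zero_add]
      · intro x _; simp
      · intro x _; simp
    · unfold X
      rw [card_eq_zero, filter_eq_empty_iff]
      intro x _ hx
      exact h ⟨x, hx⟩
  refine ⟨?_, ?_, ?_⟩
  · rw [hX]
    split_ifs
    · rw [hker]; exact even_two_mul k
    · exact Even.zero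
  · intro hle
    have hk1 : k = 1 := by
      have hpos : 0 < Nat.card (lin p q S).ker := Nat.card_pos
      omega
    have h4 : (lin p q S).range = (sm V).ker := by
      refine AddSubgroup.eq_of_le_of_card_ge h1 ?_
      rw [hk, hk1, mul_one]
    rw [hX, if_pos, hker, hk1]
    rw [h4]
    exact sm_tgt p S hS
  · intro hgt
    rw [hX]
    split_ifs
    · have h5 : Nat.card (lin p q S).ker ∣ 2 ^ Fintype.card V := ⟨_, h2.symm⟩
      obtain ⟨j, _, hj⟩ := (Nat.dvd_prime_pow Nat.prime_two).1 h5
      rw [hj] at hgt ⊢
      have hj2 : 2 ≤ j := by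
        by_contra hcon
        have : j ≤ 1 := by omega
        have := Nat.pow_le_pow_right (n := 2) (by norm_num) this
        omega
      exact pow_dvd_pow 2 hj2
    · exact dvd_zero 4

end lin

section cb

variable {F E : Type} [Fintype F] [Fintype E] [DecidableEq F] [DecidableEq E]

/-- The distinct choices: injective functions choosing an element of each row. -/
def ch (d : F → E → ZMod 2) : Finset (F → E) :=
  {g : F → E | Function.Injective g ∧ ∀ f, d f (g f) = 1}

/-- The number of distinct choices with range `S`. -/
def Q (d : F → E → ZMod 2) (S : Finset E) : ℕ := #{g ∈ ch d | univ.image g = S}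

/-- The matrix of the columns `g`. -/
def col (d : F → E → ZMod 2) (g : F → E) : Matrix F F (ZMod 2) := Matrix.of fun i j => d i (g j)

theorem det_eq_sum (M : Matrix F F (ZMod 2)) :
    M.det = ∑ σ : Equiv.Perm F, ∏ i, M (σ i) i := by
  rw [Matrix.det_apply]
  refine sum_congr rfl fun σ _ => ?_
  rcases Int.units_eq_one_or (Equiv.Perm.sign σ) with h | h
  · rw [h, one_smul]
  · rw [h, Units.neg_smul, one_smul]
    generalize ∏ i, M (σ i) i = t
    revert t
    decide

theorem binet (d : F → E → ZMod 2) :
    (Matrix.of d * (Matrix.of d).transpose).det = ∑ g : F → E, (∏ i, d i (g i)) * (col d g).det := by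
  rw [det_eq_sum]
  simp only [Matrix.mul_apply, Matrix.transpose_apply, Matrix.of_apply]
  simp only [Fintype.prod_sum]
  rw [sum_comm]
  refine sum_congr rfl fun g _ => ?_
  rw [det_eq_sum, mul_sum]
  refine sum_congr rfl fun σ _ => ?_
  rw [← prod_mul_distrib]
  refine prod_congr rfl fun i _ => ?_
  simp [col, mul_comm]

theorem zmod2_cases (t : ZMod 2) : t = 0 ∨ t = 1 := by
  revert t; decide

theorem det_col_of_not_injective (d : F → E → ZMod 2) (g : F → E) (hg : ¬ Function.Injective g) :
    (col d g).det = 0 := by
  rw [Function.Injective] at hg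
  push Not at hg
  obtain ⟨i, j, h1, h2⟩ := hg
  refine Matrix.det_zero_of_column_eq h2 fun k => ?_
  simp [col, h1]

theorem det_col (d : F → E → ZMod 2) (g : F → E) (hg : g ∈ ch d) :
    (col d g).det = (Q d (univ.image g) : ZMod 2) := by
  rw [det_eq_sum]
  have h1 : ∀ σ : Equiv.Perm F, ∏ i, col d g (σ i) i =
      if (∀ i, d (σ i) (g i) = 1) then 1 else 0 := by
    intro σ
    split_ifs with h
    · exact prod_eq_one fun i _ => h i
    · push Not at h
      obtain ⟨i, hi⟩ := h
      exact prod_eq_zero (mem_univ i) ((zmod2_cases _).resolve_right hi)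
  simp only [h1]
  rw [sum_boole]
  congr 1
  unfold ch at hg
  rw [mem_filter] at hg
  refine card_bij (fun σ _ => fun f => g (σ.symm f)) ?_ ?_ ?_
  · intro σ hσ
    rw [mem_filter] at hσ
    rw [mem_filter]
    refine ⟨?_, ?_⟩
    · unfold ch
      rw [mem_filter]
      refine ⟨mem_univ _, hg.2.1.comp σ.symm.injective, fun f => ?_⟩
      have := hσ.2 (σ.symm f)
      rwa [Equiv.apply_symm_apply] at this
    · ext e
      simp only [mem_image, mem_univ, true_and]
      constructor
      · rintro ⟨f, rfl⟩
        exact ⟨_, rfl⟩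
      · rintro ⟨f, rfl⟩
        exact ⟨σ f, by simp⟩
  · intro σ _ τ _ h
    have h2 : ∀ f, σ.symm f = τ.symm f := fun f => hg.2.1 (congrFun h f)
    exact Equiv.symm_bijective.injective (Equiv.ext h2)
  · intro g' hg'
    unfold ch at hg'
    rw [mem_filter, mem_filter] at hg'
    obtain ⟨⟨_, hinj, hd⟩, himg⟩ := hg'
    have h3 : ∀ f, ∃ f', g f' = g' f := by
      intro f
      have : g' f ∈ univ.image g := by
        rw [← himg]; exact mem_image_of_mem _ (mem_univ f)
      rw [mem_image] at this
      obtain ⟨f', _, h⟩ := this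
      exact ⟨f', h⟩
    choose τ hτ using h3
    have hτi : Function.Injective τ := by
      intro a b hab
      apply hinj
      rw [← hτ a, ← hτ b, hab]
    have hτb : Function.Bijective τ := Finite.injective_iff_bijective.1 hτi
    refine ⟨(Equiv.ofBijective τ hτb).symm, ?_, ?_⟩
    · rw [mem_filter]
      refine ⟨mem_univ _, fun i => ?_⟩
      obtain ⟨j, rfl⟩ := hτb.2 i
      have h4 : (Equiv.ofBijective τ hτb).symm (τ j) = j := by
        rw [Equiv.symm_apply_eq]; rfl
      rw [h4, hτ j]
      exact hd j
    · funext f
      rw [Equiv.symm_symm]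
      exact hτ f

/-- A symmetric matrix of odd order over `F_2` with zero diagonal is singular. -/
theorem det_alt (A : Matrix F F (ZMod 2)) (hs : ∀ i j, A i j = A j i) (h0 : ∀ i, A i i = 0)
    (hodd : Odd (Fintype.card F)) : A.det = 0 := by
  rw [det_eq_sum]
  have hinv : ∀ σ : Equiv.Perm F, ∏ i, A (σ⁻¹ i) i = ∏ i, A (σ i) i := by
    intro σ
    rw [← Equiv.prod_comp σ]
    refine prod_congr rfl fun i _ => ?_
    rw [show σ⁻¹ (σ i) = i from σ.symm_apply_apply i, hs]
  refine sum_involution (fun σ _ => σ⁻¹) ?_ ?_ ?_ ?_
  · intro σ _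
    rw [hinv]
    generalize ∏ i, A (σ i) i = t
    revert t; decide
  · intro σ _ hσ heq
    apply hσ
    have : Fact (Nat.Prime 2) := ⟨Nat.prime_two⟩
    have hnd : ¬ 2 ∣ Fintype.card F := by
      rw [← even_iff_two_dvd]; exact Nat.not_even_iff_odd.2 hodd
    have h2 : σ ^ 2 ^ 1 = 1 := by
      rw [pow_one, sq]
      nth_rewrite 2 [← heq]
      exact mul_inv_cancel σ
    obtain ⟨i, hi⟩ := Equiv.Perm.exists_fixed_point_of_prime hnd h2
    refine prod_eq_zero (mem_univ i) ?_
    rw [hi]; exact h0 i
  · intro σ _; exact mem_univ _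
  · intro σ _; exact inv_inv σ

/-- Sum of a function of the range. -/
theorem sum_range_zero (d : F → E → ZMod 2) (c : Finset E → ZMod 2)
    (hc : ∀ S, (Q d S : ZMod 2) * c S = 0) : ∑ g ∈ ch d, c (univ.image g) = 0 := by
  rw [sum_comp c (fun g : F → E => univ.image g)]
  refine sum_eq_zero fun S _ => ?_
  rw [nsmul_eq_mul]
  exact hc S

theorem card_ch_even (d : F → E → ZMod 2) (hodd : Odd (Fintype.card F))
    (hd : ∀ f, ∑ e, d f e = 0) : ((#(ch d) : ℕ) : ZMod 2) = 0 := by
  have hsq : ∀ t : ZMod 2, t * t = t := by decide
  have h1 : (Matrix.of d * (Matrix.of d).transpose).det = 0 := by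
    refine det_alt _ ?_ ?_ hodd
    · intro i j
      simp only [Matrix.mul_apply, Matrix.transpose_apply, Matrix.of_apply]
      exact sum_congr rfl fun e _ => mul_comm _ _
    · intro i
      simp only [Matrix.mul_apply, Matrix.transpose_apply, Matrix.of_apply, hsq]
      exact hd i
  rw [binet] at h1
  have h2 : ∑ g : F → E, (∏ i, d i (g i)) * (col d g).det =
      ∑ g ∈ ch d, (Q d (univ.image g) : ZMod 2) := by
    unfold ch
    rw [sum_filter]
    refine sum_congr rfl fun g _ => ?_
    split_ifs with h
    · rw [det_col d g (by unfold ch; rw [mem_filter]; exact ⟨mem_univ _, h⟩),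
        prod_eq_one fun i _ => h.2 i, one_mul]
    · by_cases hi : Function.Injective g
      · have h3 : ¬ ∀ f, d f (g f) = 1 := fun h4 => h ⟨hi, h4⟩
        push Not at h3
        obtain ⟨f, hf⟩ := h3
        rw [prod_eq_zero (mem_univ f) ((zmod2_cases _).resolve_right hf), zero_mul]
      · rw [det_col_of_not_injective d g hi, mul_zero]
  rw [h2] at h1
  have h3 := sum_range_zero d (fun S => 1 + (Q d S : ZMod 2)) (by
    intro S
    generalize (Q d S : ZMod 2) = t
    revert t; decide)
  rw [sum_add_distrib, h1, add_zero] at h3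
  simpa using h3

end cb

section main

variable {V F E : Type} [Fintype V] [Fintype F] [Fintype E] [DecidableEq V] [DecidableEq F]
  [DecidableEq E]

/-- The condition on a bijection. -/
def Inc (p q : E → V) (d : F → E → ZMod 2) (e : E) : V ⊕ F → Prop
  | Sum.inl v => v = p e ∨ v = q e
  | Sum.inr f => d f e = 1

theorem ker_le (p q : E → V) (d : F → E → ZMod 2) (dh : E → ZMod 2)
    (hcyc : ∀ z : E → ZMod 2,
      (∀ v, ∑ e, z e * ((if p e = v then 1 else 0) + (if q e = v then 1 else 0)) = 0) →
      ∃ (t : ZMod 2) (u : F → ZMod 2), ∀ e, z e = t * dh e + ∑ f, u f * d f e)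
    (S : Finset E) (hQ : (Q d S : ZMod 2) = 1) : Nat.card (lin p q S).ker ≤ 2 := by
  classical
  have h1 : ∃ g ∈ ch d, univ.image g = S := by
    by_contra hcon
    push Not at hcon
    have : Q d S = 0 := by
      unfold Q
      rw [card_eq_zero, filter_eq_empty_iff]
      intro g hg
      exact hcon g hg
    rw [this] at hQ
    exact absurd hQ (by decide)
  obtain ⟨g, hg, rfl⟩ := h1
  rw [← det_col d g hg] at hQ
  have hdet : (col d g).det ≠ 0 := by rw [hQ]; decide
  have key : ∀ x : (lin p q (univ.image g)).ker, ∃ (t : ZMod 2) (u : F → ZMod 2),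
      ∀ e, (if h : e ∉ univ.image g then x.1 ⟨e, h⟩ else 0) = t * dh e + ∑ f, u f * d f e := by
    intro x
    refine hcyc _ fun v => ?_
    have h2 := congrFun x.2 v
    rw [lin_apply] at h2
    rw [Pi.zero_apply] at h2
    refine Eq.trans ?_ h2
    rw [← sum_subset (subset_univ ((univ.image g)ᶜ))]
    · rw [sum_subtype (p := fun e => e ∉ univ.image g) ((univ.image g)ᶜ)
        (fun e => by rw [mem_compl]) (fun e => (if h : e ∉ univ.image g then x.1 ⟨e, h⟩ else 0) *
          ((if p e = v then 1 else 0) + (if q e = v then 1 else 0)))]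
      refine sum_congr rfl fun e _ => ?_
      rw [dif_pos e.2]
    · intro e _ he
      rw [mem_compl, not_not] at he
      rw [dif_neg (not_not.2 he), zero_mul]
  choose t u ht using key
  have hinj : Function.Injective t := by
    intro x y hxy
    have h3 : ∀ e, (if h : e ∉ univ.image g then x.1 ⟨e, h⟩ else 0) -
        (if h : e ∉ univ.image g then y.1 ⟨e, h⟩ else 0) = ∑ f, (u x f - u y f) * d f e := by
      intro e
      rw [ht x e, ht y e, hxy]
      simp only [sub_mul, sum_sub_distrib]
      ring
    have h4 : Matrix.vecMul (u x - u y) (col d g) = 0 := by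
      funext j
      have h5 := h3 (g j)
      have h6 : ¬ (g j ∉ univ.image g) := not_not.2 (mem_image_of_mem _ (mem_univ j))
      rw [dif_neg h6, dif_neg h6, sub_self] at h5
      rw [Pi.zero_apply, h5]
      rfl
    have h7 := Matrix.eq_zero_of_vecMul_eq_zero hdet h4
    have h8 : ∀ f, u x f - u y f = 0 := fun f => congrFun h7 f
    apply Subtype.ext
    funext e
    have h9 := h3 e.1
    rw [dif_pos e.2, dif_pos e.2] at h9
    simp only [h8, zero_mul, sum_const_zero] at h9
    exact sub_eq_zero.1 h9
  calc Nat.card (lin p q (univ.image g)).ker ≤ Nat.card (ZMod 2) :=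
        Nat.card_le_card_of_injective t hinj
    _ = 2 := by simp

theorem card_eq (p q : E → V) (hpq : ∀ e, p e ≠ q e) (d : F → E → ZMod 2)
    (hcard : Fintype.card E = Fintype.card V + Fintype.card F) :
    Nat.card {σ : E ≃ V ⊕ F // ∀ e, Inc p q d e (σ e)} =
      ∑ g ∈ ch d, X p q (univ.image g) := by
  classical
  have hx : ∀ (S : Finset E) (x : {e // e ∉ S} → ZMod 2) (v : V),
      (lin p q S x v = tgt p S v) ↔
        (∑ e : {e // e ∉ S}, if (if x e = 0 then p e.1 else q e.1) = v then (1 : ZMod 2) else 0) = 1 := by
    intro S x v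
    rw [lin_apply, tgt]
    have h1 : ∀ e : {e // e ∉ S},
        (if (if x e = 0 then p e.1 else q e.1) = v then (1 : ZMod 2) else 0) =
        x e * ((if p e.1 = v then 1 else 0) + (if q e.1 = v then 1 else 0)) +
          (if p e.1 = v then 1 else 0) := by
      intro e
      rcases zmod2_cases (x e) with h | h
      · rw [h]; simp
      · rw [h]
        simp only [one_ne_zero, if_false, one_mul]
        generalize (if p e.1 = v then (1 : ZMod 2) else 0) = a
        generalize (if q e.1 = v then (1 : ZMod 2) else 0) = b
        revert a b; decide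
    rw [sum_congr rfl fun e _ => h1 e, sum_add_distrib]
    generalize ∑ e : {e // e ∉ S},
      x e * ((if p e.1 = v then 1 else 0) + (if q e.1 = v then 1 else 0)) = a
    generalize (∑ e : {e // e ∉ S}, if p e.1 = v then (1 : ZMod 2) else 0) = b
    revert a b; decide
  rw [Nat.card_eq_fintype_card, Fintype.card_subtype]
  -- fibre over the choice of the faces
  rw [card_eq_sum_card_fiberwise (f := fun σ : E ≃ V ⊕ F => fun f => σ.symm (Sum.inr f))
    (t := ch d)]
  · refine sum_congr rfl fun g hg => ?_
    unfold X
    have hg' := hg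
    unfold ch at hg'
    rw [mem_filter] at hg'
    refine card_bij (fun σ _ => fun e => if σ e.1 = Sum.inl (p e.1) then 0 else 1) ?_ ?_ ?_
    · intro σ hσ
      rw [mem_filter, mem_filter] at hσ
      obtain ⟨⟨_, hinc⟩, hfib⟩ := hσ
      rw [mem_filter]
      refine ⟨mem_univ _, ?_⟩
      funext v
      rw [hx]
      rw [sum_boole]
      have : #{e : {e // e ∉ univ.image g} | (if (if σ e.1 = Sum.inl (p e.1) then (0 : ZMod 2) else 1) = 0
          then p e.1 else q e.1) = v} = 1 := by
        rw [card_eq_one]
        have hv : σ.symm (Sum.inl v) ∉ univ.image g := by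
          rw [mem_image]
          rintro ⟨f, _, hf⟩
          rw [← hfib] at hf
          have := σ.symm.injective hf
          exact absurd this (by simp)
        have hval : ∀ e : {e // e ∉ univ.image g},
            σ e.1 = Sum.inl (if (if σ e.1 = Sum.inl (p e.1) then (0 : ZMod 2) else 1) = 0
              then p e.1 else q e.1) := by
          intro e
          have h2 := hinc e.1
          rcases h3 : σ e.1 with w | f
          · rw [h3] at h2
            by_cases hw : w = p e.1
            · rw [if_pos (show (Sum.inl w : V ⊕ F) = Sum.inl (p e.1) by rw [hw]), if_pos rfl, hw]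
            · have hw2 : (Sum.inl w : V ⊕ F) ≠ Sum.inl (p e.1) := fun h => hw (Sum.inl.inj h)
              rw [if_neg hw2, if_neg (by decide)]
              rcases h2 with h2 | h2
              · exact absurd h2 hw
              · rw [h2]
          · exfalso
            apply e.2
            rw [mem_image]
            refine ⟨f, mem_univ f, ?_⟩
            refine (congrFun hfib f).symm.trans ?_
            change σ.symm (Sum.inr f) = e.1
            rw [← h3, Equiv.symm_apply_apply]
        refine ⟨⟨_, hv⟩, ?_⟩
        ext e
        rw [mem_filter, mem_singleton]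
        constructor
        · rintro ⟨_, h⟩
          have h2 := hval e
          rw [h] at h2
          apply Subtype.ext
          change e.1 = σ.symm (Sum.inl v)
          rw [← h2, Equiv.symm_apply_apply]
        · intro h
          refine ⟨mem_univ _, ?_⟩
          have h2 := hval e
          have h3 : σ e.1 = Sum.inl v := by rw [h, Equiv.apply_symm_apply]
          exact Sum.inl.inj (h2.symm.trans h3)
      rw [this]; rfl
    · intro σ hσ τ hτ h
      rw [mem_filter, mem_filter] at hσ hτ
      obtain ⟨⟨_, hinc⟩, hfib⟩ := hσ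
      obtain ⟨⟨_, hinc'⟩, hfib'⟩ := hτ
      apply Equiv.ext
      intro e
      by_cases he : e ∈ univ.image g
      · rw [mem_image] at he
        obtain ⟨f, _, rfl⟩ := he
        have h1 := congrFun hfib f
        have h2 := congrFun hfib' f
        change σ.symm (Sum.inr f) = g f at h1
        change τ.symm (Sum.inr f) = g f at h2
        rw [← h1, Equiv.apply_symm_apply, h1, ← h2, Equiv.apply_symm_apply]
      · have h1 := congrFun h ⟨e, he⟩
        change (if σ e = Sum.inl (p e) then (0 : ZMod 2) else 1) =
          (if τ e = Sum.inl (p e) then (0 : ZMod 2) else 1) at h1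
        have hnot : ∀ (ρ : E ≃ V ⊕ F), (∀ e, Inc p q d e (ρ e)) →
            (fun f => ρ.symm (Sum.inr f)) = g → ρ e = Sum.inl (p e) ∨ ρ e = Sum.inl (q e) := by
          intro ρ h3 h4
          have h5 := h3 e
          rcases h6 : ρ e with w | f
          · rw [h6] at h5
            rcases h5 with h5 | h5
            · left; rw [h5]
            · right; rw [h5]
          · exfalso
            apply he
            rw [mem_image]
            refine ⟨f, mem_univ f, ?_⟩
            rw [← h4]
            change ρ.symm (Sum.inr f) = e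
            rw [← h6, Equiv.symm_apply_apply]
        rcases hnot σ hinc hfib with h2 | h2 <;> rcases hnot τ hinc' hfib' with h3 | h3
        · rw [h2, h3]
        · exfalso
          rw [h2, h3, if_pos rfl, if_neg (fun h => hpq e (Sum.inl.inj h).symm)] at h1
          exact absurd h1 (by decide)
        · exfalso
          rw [h2, h3, if_pos rfl, if_neg (fun h => hpq e (Sum.inl.inj h).symm)] at h1
          exact absurd h1 (by decide)
        · rw [h2, h3]
    · intro x hx'
      rw [mem_filter] at hx'
      have hx2 : ∀ v, ∃ e : {e // e ∉ univ.image g}, (if x e = 0 then p e.1 else q e.1) = v := by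
        intro v
        by_contra hcon
        push Not at hcon
        have h1 := (hx _ x v).1 (congrFun hx'.2 v)
        rw [sum_eq_zero fun e _ => if_neg (hcon e)] at h1
        exact absurd h1 (by decide)
      let τ : E → V ⊕ F := fun e => if h : e ∈ univ.image g then
        Sum.inr (Classical.choose (mem_image.1 h)) else
        Sum.inl (if x ⟨e, h⟩ = 0 then p e else q e)
      have hτg : ∀ f, τ (g f) = Sum.inr f := by
        intro f
        have h1 : g f ∈ univ.image g := mem_image_of_mem _ (mem_univ f)
        change (if h : g f ∈ univ.image g then Sum.inr (Classical.choose (mem_image.1 h)) else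
          Sum.inl (if x ⟨g f, h⟩ = 0 then p (g f) else q (g f))) = Sum.inr f
        rw [dif_pos h1]
        congr 1
        exact hg'.2.1 (Classical.choose_spec (mem_image.1 h1)).2
      have hτe : ∀ e : {e // e ∉ univ.image g}, τ e.1 =
          Sum.inl (if x e = 0 then p e.1 else q e.1) := by
        intro e
        exact dif_neg e.2
      have hsurj : Function.Surjective τ := by
        rintro (v | f)
        · obtain ⟨e, he⟩ := hx2 v
          exact ⟨e.1, by rw [hτe, he]⟩
        · exact ⟨g f, hτg f⟩
      have hbij : Function.Bijective τ := by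
        rw [Fintype.bijective_iff_surjective_and_card]
        exact ⟨hsurj, by rw [hcard, Fintype.card_sum]⟩
      have hsy : ∀ f, (Equiv.ofBijective τ hbij).symm (Sum.inr f) = g f := by
        intro f
        rw [Equiv.symm_apply_eq]
        exact (hτg f).symm
      refine ⟨Equiv.ofBijective τ hbij, ?_, ?_⟩
      · rw [mem_filter, mem_filter]
        refine ⟨⟨mem_univ _, fun e => ?_⟩, ?_⟩
        · change Inc p q d e (τ e)
          by_cases he : e ∈ univ.image g
          · rw [mem_image] at he
            obtain ⟨f, _, rfl⟩ := he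
            rw [hτg]
            exact hg'.2.2 f
          · rw [hτe ⟨e, he⟩]
            change (if x ⟨e, he⟩ = 0 then p e else q e) = p e ∨ (if x ⟨e, he⟩ = 0 then p e else q e) = q e
            split_ifs
            · left; rfl
            · right; rfl
        · funext f
          exact hsy f
      · funext e
        change (if τ e.1 = Sum.inl (p e.1) then (0 : ZMod 2) else 1) = x e
        rw [hτe]
        rcases zmod2_cases (x e) with h | h
        · rw [h, if_pos rfl, if_pos rfl]
        · rw [h]
          simp only [one_ne_zero, if_false]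
          rw [if_neg (fun h => hpq e.1 (Sum.inl.inj h).symm)]
  · intro σ hσ
    rw [mem_coe, mem_filter] at hσ
    rw [mem_coe]
    unfold ch
    rw [mem_filter]
    refine ⟨mem_univ _, ?_, ?_⟩
    · intro f f' h
      exact Sum.inr.inj (σ.symm.injective h)
    · intro f
      have := hσ.2 (σ.symm (Sum.inr f))
      rw [Equiv.apply_symm_apply] at this
      exact this

theorem four_dvd [Nonempty V] (p q : E → V) (hpq : ∀ e, p e ≠ q e) (d : F → E → ZMod 2)
    (dh : E → ZMod 2) (hcard : Fintype.card E = Fintype.card V + Fintype.card F)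
    (hodd : Odd (Fintype.card F)) (hd : ∀ f, ∑ e, d f e = 0)
    (hcyc : ∀ z : E → ZMod 2,
      (∀ v, ∑ e, z e * ((if p e = v then 1 else 0) + (if q e = v then 1 else 0)) = 0) →
      ∃ (t : ZMod 2) (u : F → ZMod 2), ∀ e, z e = t * dh e + ∑ f, u f * d f e) :
    4 ∣ Nat.card {σ : E ≃ V ⊕ F // ∀ e, Inc p q d e (σ e)} := by
  classical
  rw [card_eq p q hpq d hcard]
  have hS : ∀ g ∈ ch d, Fintype.card {e // e ∉ univ.image g} = Fintype.card V := by
    intro g hg
    unfold ch at hg
    rw [mem_filter] at hg
    rw [Fintype.card_subtype_compl (fun e => e ∈ univ.image g), Fintype.card_coe,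
      card_image_of_injective _ hg.2.1, card_univ, hcard]
    omega
  -- the half of `X`
  have heven : ∀ g ∈ ch d, Even (X p q (univ.image g)) := fun g hg => (X_fact p q _ (hS g hg)).1
  have h2 : ∑ g ∈ ch d, X p q (univ.image g) = 2 * ∑ g ∈ ch d, X p q (univ.image g) / 2 := by
    rw [mul_sum]
    refine sum_congr rfl fun g hg => ?_
    exact (Nat.two_mul_div_two_of_even (heven g hg)).symm
  rw [h2]
  have h3 : ((∑ g ∈ ch d, X p q (univ.image g) / 2 : ℕ) : ZMod 2) = 0 := by
    have h4 := sum_range_zero d (fun S => 1 + ((X p q S / 2 : ℕ) : ZMod 2)) (by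
      intro S
      rcases zmod2_cases (Q d S : ZMod 2) with h | h
      · rw [h, zero_mul]
      · rw [h, one_mul]
        have hne : ∃ g ∈ ch d, univ.image g = S := by
          by_contra hcon
          push Not at hcon
          have : Q d S = 0 := by
            unfold Q
            rw [card_eq_zero, filter_eq_empty_iff]
            intro g hg
            exact hcon g hg
          rw [this] at h
          exact absurd h (by decide)
        obtain ⟨g, hg, rfl⟩ := hne
        rw [(X_fact p q _ (hS g hg)).2.1 (ker_le p q d dh hcyc _ h)]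
        decide)
    rw [sum_add_distrib] at h4
    have h5 := card_ch_even d hodd hd
    simp only [sum_const, nsmul_eq_mul, mul_one] at h4
    rw [h5, zero_add] at h4
    rw [← h4]
    push_cast
    rfl
  have h6 : 2 ∣ ∑ g ∈ ch d, X p q (univ.image g) / 2 := (ZMod.natCast_eq_zero_iff _ _).1 h3
  exact Nat.mul_dvd_mul_left 2 h6

end main

end Pool.Agent.R26.Hole
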