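import Pool.Agent.R26.HoleAbs

/-!
The grid graph with one even white vertex removed.
-/

set_option autoImplicit false

namespace Pool.Agent.R26.Hole

open Finset

/-- Matchings which miss only `h` as bijections between the two colour classes. -/
theorem card_matchings {U W E : Type} (G : SimpleGraph U) (h : U) (eE : E → U) (eW : W → U)
    (iE : Function.Injective eE) (iW : Function.Injective eW)
    (hE : ∀ e, eE e ≠ h) (hW : ∀ w, eW w ≠ h) (hEW : ∀ e w, eE e ≠ eW w)
    (hcov : ∀ u, u ≠ h → (∃ e, eE e = u) ∨ (∃ w, eW w = u))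
    (hEE : ∀ e e', ¬ G.Adj (eE e) (eE e')) (hWW : ∀ w w', ¬ G.Adj (eW w) (eW w')) :
    Nat.card {M : G.Subgraph // M.IsMatching ∧ M.verts = {h}ᶜ} =
      Nat.card {σ : E ≃ W // ∀ e, G.Adj (eE e) (eW (σ e))} := by
  classical
  let toM : {σ : E ≃ W // ∀ e, G.Adj (eE e) (eW (σ e))} → G.Subgraph := fun σ =>
    { verts := {h}ᶜ
      Adj := fun a b => ∃ e, (a = eE e ∧ b = eW (σ.1 e)) ∨ (b = eE e ∧ a = eW (σ.1 e))
      adj_sub := by
        rintro a b ⟨e, ⟨rfl, rfl⟩ | ⟨rfl, rfl⟩⟩
        · exact σ.2 e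
        · exact (σ.2 e).symm
      edge_vert := by
        rintro a b ⟨e, ⟨rfl, rfl⟩ | ⟨rfl, rfl⟩⟩
        · exact hE e
        · exact hW _
      symm := ⟨fun a b ⟨e, he⟩ => ⟨e, he.symm⟩⟩ }
  have hm : ∀ σ, (toM σ).IsMatching := by
    intro σ v hv
    rcases hcov v hv with ⟨e, rfl⟩ | ⟨w, rfl⟩
    · refine ⟨eW (σ.1 e), ⟨e, Or.inl ⟨rfl, rfl⟩⟩, ?_⟩
      rintro b ⟨e', ⟨h1, h2⟩ | ⟨h1, h2⟩⟩
      · rw [h2, iE h1]
      · exact absurd h2 (hEW _ _)
    · refine ⟨eE (σ.1.symm w), ⟨σ.1.symm w, Or.inr ⟨rfl, by rw [Equiv.apply_symm_apply]⟩⟩, ?_⟩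
      rintro b ⟨e', ⟨h1, h2⟩ | ⟨h1, h2⟩⟩
      · exact absurd h1.symm (hEW _ _)
      · rw [h1, iW h2, Equiv.symm_apply_apply]
  symm
  refine Nat.card_congr (Equiv.ofBijective (fun σ => ⟨toM σ, hm σ, rfl⟩) ⟨?_, ?_⟩)
  · intro σ τ hst
    have h1 : toM σ = toM τ := congrArg Subtype.val hst
    apply Subtype.ext
    apply Equiv.ext
    intro e
    have h2 : (toM σ).Adj (eE e) (eW (σ.1 e)) := ⟨e, Or.inl ⟨rfl, rfl⟩⟩
    rw [h1] at h2
    obtain ⟨e', ⟨h3, h4⟩ | ⟨h3, h4⟩⟩ := h2
    · have h5 := iW h4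
      rw [← iE h3] at h5
      exact h5
    · exact absurd h4 (hEW _ _)
  · rintro ⟨M, hM, hV⟩
    have h1 : ∀ e, ∃ w, M.Adj (eE e) (eW w) := by
      intro e
      have : eE e ∈ M.verts := by rw [hV]; exact hE e
      obtain ⟨u, hu, _⟩ := hM this
      have hu2 : u ≠ h := by
        have := M.edge_vert hu.symm
        rw [hV] at this
        exact this
      rcases hcov u hu2 with ⟨e', rfl⟩ | ⟨w, rfl⟩
      · exact absurd (M.adj_sub hu) (hEE _ _)
      · exact ⟨w, hu⟩
    choose τ hτ using h1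
    have hinj : Function.Injective τ := by
      intro e e' hee
      have h2 := (hτ e).symm
      have h3 := (hτ e').symm
      rw [← hee] at h3
      exact iE (hM.eq_of_adj_left h2 h3)
    have hsurj : Function.Surjective τ := by
      intro w
      have : eW w ∈ M.verts := by rw [hV]; exact hW w
      obtain ⟨u, hu, _⟩ := hM this
      have hu2 : u ≠ h := by
        have := M.edge_vert hu.symm
        rw [hV] at this
        exact this
      rcases hcov u hu2 with ⟨e, rfl⟩ | ⟨w', rfl⟩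
      · exact ⟨e, iW (hM.eq_of_adj_left (hτ e) hu.symm)⟩
      · exact absurd (M.adj_sub hu) (hWW _ _)
    refine ⟨⟨Equiv.ofBijective τ ⟨hinj, hsurj⟩, fun e => M.adj_sub (hτ e)⟩, ?_⟩
    apply Subtype.ext
    change toM _ = M
    refine SimpleGraph.Subgraph.ext hV.symm ?_
    funext a b
    apply propext
    constructor
    · rintro ⟨e, ⟨rfl, rfl⟩ | ⟨rfl, rfl⟩⟩
      · exact hτ e
      · exact (hτ e).symm
    · intro hab
      have ha : a ≠ h := by
        have := M.edge_vert hab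
        rw [hV] at this
        exact this
      rcases hcov a ha with ⟨e, rfl⟩ | ⟨w, rfl⟩
      · exact ⟨e, Or.inl ⟨rfl, hM.eq_of_adj_left hab (hτ e)⟩⟩
      · obtain ⟨e, rfl⟩ := hsurj w
        exact ⟨e, Or.inr ⟨hM.eq_of_adj_left hab (hτ e).symm, rfl⟩⟩

/-- The `r × c` grid graph; the cell in row `i` and column `j` (counted from 1) is `(i-1, j-1)`. -/
def grid (r c : ℕ) : SimpleGraph (Fin r × Fin c) where
  Adj x y := (x.1 = y.1 ∧ (x.2.val + 1 = y.2.val ∨ y.2.val + 1 = x.2.val)) ∨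
    (x.2 = y.2 ∧ (x.1.val + 1 = y.1.val ∨ y.1.val + 1 = x.1.val))
  symm := ⟨fun x y h => by
    rcases h with ⟨h1, h2⟩ | ⟨h1, h2⟩
    · exact Or.inl ⟨h1.symm, h2.symm⟩
    · exact Or.inr ⟨h1.symm, h2.symm⟩⟩
  loopless := ⟨fun x h => by
    rcases h with ⟨_, h2⟩ | ⟨_, h2⟩ <;> omega⟩

section concrete

variable {m n : ℕ}

/-- the vertices -/
abbrev Vt (m n : ℕ) := Fin (m + 1) × Fin (n + 1)
/-- the edges -/
abbrev Ed (m n : ℕ) := (Fin (m + 1) × Fin n) ⊕ (Fin m × Fin (n + 1))
/-- the faces -/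
abbrev Fc (m n : ℕ) := Fin m × Fin n

def pp : Ed m n → Vt m n
  | Sum.inl (i, j) => (i, j.castSucc)
  | Sum.inr (i, j) => (i.castSucc, j)

def qq : Ed m n → Vt m n
  | Sum.inl (i, j) => (i, j.succ)
  | Sum.inr (i, j) => (i.succ, j)

def dd : Fc m n → Ed m n → ZMod 2
  | (a, b), Sum.inl (i, j) =>
    if b = j then (if a.castSucc = i then 1 else 0) + (if a.succ = i then 1 else 0) else 0
  | (a, b), Sum.inr (i, j) =>
    if a = i then (if b.castSucc = j then 1 else 0) + (if b.succ = j then 1 else 0) else 0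

theorem tele (k : ℕ) (f : ℕ → ZMod 2) (h0 : f 0 = 0) (hk : f (k + 1) = 0) (i : Fin (k + 1)) :
    ∑ a : Fin k, f (a.val + 1) * ((if a.castSucc = i then 1 else 0) + (if a.succ = i then 1 else 0)) =
      f (i.val + 1) + f i.val := by
  simp only [mul_add, sum_add_distrib, mul_ite, mul_one, mul_zero]
  congr 1
  · by_cases hi : i.val < k
    · rw [sum_eq_single ⟨i.val, hi⟩]
      · rw [if_pos (by ext; rfl)]
      · intro b _ hb
        rw [if_neg]
        intro h
        apply hb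
        ext
        have h9 : b.castSucc.val = i.val := congrArg Fin.val h
        exact h9
      · intro h; exact absurd (mem_univ _) h
    · have : i.val = k := by have := i.2; omega
      rw [this, hk]
      refine sum_eq_zero fun a _ => ?_
      rw [if_neg]
      intro h
      have h2 := congrArg Fin.val h
      rw [Fin.val_castSucc] at h2
      have := a.2
      omega
  · by_cases hi : i.val = 0
    · rw [hi, h0]
      refine sum_eq_zero fun a _ => ?_
      rw [if_neg]
      intro h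
      have h2 := congrArg Fin.val h
      rw [Fin.val_succ] at h2
      omega
    · have hik : i.val - 1 < k := by have := i.2; omega
      rw [sum_eq_single ⟨i.val - 1, hik⟩]
      · rw [if_pos (by ext; simp only [Fin.val_succ]; omega)]
        congr 1
        change i.val - 1 + 1 = i.val
        omega
      · intro b _ hb
        rw [if_neg]
        intro h
        apply hb
        ext
        have h2 := congrArg Fin.val h
        rw [Fin.val_succ] at h2
        change b.val = i.val - 1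
        omega
      · intro h; exact absurd (mem_univ _) h

/-- `z` on the horizontal edges, shifted -/
def zH (z : Ed m n → ZMod 2) (i j : ℕ) : ZMod 2 :=
  if h : i < m + 1 ∧ 0 < j ∧ j - 1 < n then z (Sum.inl (⟨i, h.1⟩, ⟨j - 1, h.2.2⟩)) else 0

/-- `z` on the vertical edges, shifted -/
def zV (z : Ed m n → ZMod 2) (i j : ℕ) : ZMod 2 :=
  if h : (0 < i ∧ i - 1 < m) ∧ j < n + 1 then z (Sum.inr (⟨i - 1, h.1.2⟩, ⟨j, h.2⟩)) else 0

theorem zH_succ (z : Ed m n → ZMod 2) (i : Fin (m + 1)) (j : Fin n) :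
    zH z i.val (j.val + 1) = z (Sum.inl (i, j)) := by
  unfold zH
  rw [dif_pos ⟨i.2, Nat.succ_pos _, by simp⟩]
  rfl

theorem zV_succ (z : Ed m n → ZMod 2) (i : Fin m) (j : Fin (n + 1)) :
    zV z (i.val + 1) j.val = z (Sum.inr (i, j)) := by
  unfold zV
  rw [dif_pos ⟨⟨Nat.succ_pos _, by simp⟩, j.2⟩]
  rfl

theorem vertex_eq (z : Ed m n → ZMod 2) (i : Fin (m + 1)) (j : Fin (n + 1)) :
    ∑ e, z e * ((if pp e = (i, j) then 1 else 0) + (if qq e = (i, j) then 1 else 0)) =
      (zH z i.val (j.val + 1) + zH z i.val j.val) + (zV z (i.val + 1) j.val + zV z i.val j.val) := by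
  rw [Fintype.sum_sum_type]
  congr 1
  · rw [Fintype.sum_prod_type, sum_eq_single i]
    · rw [← tele n (fun k => zH z i.val k)]
      · refine sum_congr rfl fun b _ => ?_
        rw [zH_succ]
        simp [pp, qq]
      · unfold zH
        rw [dif_neg]
        rintro ⟨_, h, _⟩
        exact lt_irrefl 0 h
      · unfold zH
        rw [dif_neg]
        rintro ⟨_, _, h⟩
        simp at h
    · intro b _ hb
      refine sum_eq_zero fun c _ => ?_
      simp [pp, qq, hb]
    · intro h; exact absurd (mem_univ _) h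
  · rw [Fintype.sum_prod_type, sum_comm, sum_eq_single j]
    · rw [← tele m (fun k => zV z k j.val)]
      · refine sum_congr rfl fun b _ => ?_
        rw [zV_succ]
        simp [pp, qq]
      · unfold zV
        rw [dif_neg]
        rintro ⟨⟨h, _⟩, _⟩
        exact lt_irrefl 0 h
      · unfold zV
        rw [dif_neg]
        rintro ⟨⟨_, h⟩, _⟩
        simp at h
    · intro b _ hb
      refine sum_eq_zero fun c _ => ?_
      simp [pp, qq, hb]
    · intro h; exact absurd (mem_univ _) h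

/-- the potential -/
def UU (z : Ed m n → ZMod 2) (i j : ℕ) : ZMod 2 := ∑ k ∈ range j, zV z i k

theorem exact_grid (z : Ed m n → ZMod 2)
    (hz : ∀ v, ∑ e, z e * ((if pp e = v then 1 else 0) + (if qq e = v then 1 else 0)) = 0) :
    ∀ e, z e = ∑ x : Fc m n, UU z (x.1.val + 1) (x.2.val + 1) * dd x e := by
  have hH : ∀ i, i ≤ m → ∀ j, j ≤ n + 1 → zH z i j = UU z (i + 1) j + UU z i j := by
    intro i hi j
    induction j with
    | zero =>
      intro _
      unfold UU zH
      rw [dif_neg]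
      · simp
      · rintro ⟨_, h, _⟩
        exact lt_irrefl 0 h
    | succ j ih =>
      intro hj
      have h1 := ih (by omega)
      have h2 := hz (⟨i, by omega⟩, ⟨j, by omega⟩)
      rw [vertex_eq] at h2
      change (zH z i (j + 1) + zH z i j) + (zV z (i + 1) j + zV z i j) = 0 at h2
      unfold UU at h1 ⊢
      rw [sum_range_succ, sum_range_succ]
      rw [h1] at h2
      generalize ∑ k ∈ range j, zV z (i + 1) k = a at *
      generalize ∑ k ∈ range j, zV z i k = b at *
      generalize zV z (i + 1) j = c at *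
      generalize zV z i j = d at *
      generalize zH z i (j + 1) = e at *
      clear h1 ih hz
      revert a b c d e
      decide
  have h0 : ∀ j, UU z 0 j = 0 := by
    intro j
    unfold UU
    refine sum_eq_zero fun k _ => ?_
    unfold zV
    rw [dif_neg]
    rintro ⟨⟨h, _⟩, _⟩
    exact lt_irrefl 0 h
  have hm : ∀ j, UU z (m + 1) j = 0 := by
    intro j
    unfold UU
    refine sum_eq_zero fun k _ => ?_
    unfold zV
    rw [dif_neg]
    rintro ⟨⟨_, h⟩, _⟩
    simp at h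
  have hn : ∀ i, i ≤ m + 1 → UU z i (n + 1) = 0 := by
    intro i
    induction i with
    | zero => intro _; exact h0 _
    | succ i ih =>
      intro hi
      have h1 := hH i (by omega) (n + 1) le_rfl
      rw [ih (by omega), add_zero] at h1
      rw [← h1]
      unfold zH
      rw [dif_neg]
      rintro ⟨_, _, h⟩
      simp at h
  rintro (⟨i, j⟩ | ⟨i, j⟩)
  · rw [Fintype.sum_prod_type]
    have h1 : ∀ a : Fin m, ∑ b : Fin n, UU z (a.val + 1) (b.val + 1) * dd (a, b) (Sum.inl (i, j)) =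
        UU z (a.val + 1) (j.val + 1) *
          ((if a.castSucc = i then 1 else 0) + (if a.succ = i then 1 else 0)) := by
      intro a
      rw [sum_eq_single j]
      · simp [dd]
      · intro b _ hb
        simp [dd, hb]
      · intro h; exact absurd (mem_univ _) h
    rw [sum_congr rfl fun a _ => h1 a]
    rw [tele m (fun k => UU z k (j.val + 1)) (h0 _) (hm _)]
    rw [← hH i.val (by have := i.2; omega) (j.val + 1) (by have := j.2; omega)]
    rw [zH_succ]
  · rw [Fintype.sum_prod_type, sum_comm]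
    have h1 : ∀ b : Fin n, ∑ a : Fin m, UU z (a.val + 1) (b.val + 1) * dd (a, b) (Sum.inr (i, j)) =
        UU z (i.val + 1) (b.val + 1) *
          ((if b.castSucc = j then 1 else 0) + (if b.succ = j then 1 else 0)) := by
      intro b
      rw [sum_eq_single i]
      · simp [dd]
      · intro a _ ha
        simp [dd, ha]
      · intro h; exact absurd (mem_univ _) h
    rw [sum_congr rfl fun b _ => h1 b]
    rw [tele n (fun k => UU z (i.val + 1) k) (by simp [UU]) (hn _ (by have := i.2; omega))]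
    have h2 : UU z (i.val + 1) (j.val + 1) = UU z (i.val + 1) j.val + zV z (i.val + 1) j.val := by
      unfold UU
      rw [sum_range_succ]
    change z (Sum.inr (i, j)) = UU z (i.val + 1) (j.val + 1) + UU z (i.val + 1) j.val
    rw [h2, zV_succ]
    generalize UU z (i.val + 1) j.val = a
    generalize z (Sum.inr (i, j)) = b
    revert a b; decide

theorem sum_dd (x : Fc m n) : ∑ e, dd x e = 0 := by
  obtain ⟨a, b⟩ := x
  rw [Fintype.sum_sum_type, Fintype.sum_prod_type, Fintype.sum_prod_type]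
  have h1 : ∑ i : Fin (m + 1), ∑ j : Fin n, dd (a, b) (Sum.inl (i, j)) = 0 := by
    simp only [dd, sum_ite_eq, mem_univ, if_true, sum_add_distrib]
    decide
  have h2 : ∑ i : Fin m, ∑ j : Fin (n + 1), dd (a, b) (Sum.inr (i, j)) = 0 := by
    rw [sum_comm]
    simp only [dd, sum_ite_eq, mem_univ, if_true, sum_add_distrib]
    decide
  rw [h1, h2, add_zero]

def posE : Ed m n → Fin (2 * m + 1) × Fin (2 * n + 1)
  | Sum.inl (i, j) => (⟨2 * i.val, by omega⟩, ⟨2 * j.val + 1, by omega⟩)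
  | Sum.inr (i, j) => (⟨2 * i.val + 1, by omega⟩, ⟨2 * j.val, by omega⟩)

def posW (h : Fc m n) : Vt m n ⊕ {x : Fc m n // x ≠ h} → Fin (2 * m + 1) × Fin (2 * n + 1)
  | Sum.inl (i, j) => (⟨2 * i.val, by omega⟩, ⟨2 * j.val, by omega⟩)
  | Sum.inr x => (⟨2 * x.1.1.val + 1, by omega⟩, ⟨2 * x.1.2.val + 1, by omega⟩)

def posH (h : Fc m n) : Fin (2 * m + 1) × Fin (2 * n + 1) :=
  (⟨2 * h.1.val + 1, by omega⟩, ⟨2 * h.2.val + 1, by omega⟩)

theorem dd_inl (a : Fin m) (b : Fin n) (i : Fin (m + 1)) (j : Fin n) :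
    dd (a, b) (Sum.inl (i, j)) = 1 ↔ b.val = j.val ∧ (a.val = i.val ∨ a.val + 1 = i.val) := by
  have h1 : (b = j) ↔ b.val = j.val := Fin.ext_iff
  have h2 : (a.castSucc = i) ↔ a.val = i.val := Fin.ext_iff
  have h3 : (a.succ = i) ↔ a.val + 1 = i.val := Fin.ext_iff
  simp only [dd, h1, h2, h3]
  split_ifs with h4 h5 h6 h6
  · omega
  · simp [h4, h5]
  · simp [h4, h6]
  · simp [h5, h6]
  · simp [h4]

theorem dd_inr (a : Fin m) (b : Fin n) (i : Fin m) (j : Fin (n + 1)) :
    dd (a, b) (Sum.inr (i, j)) = 1 ↔ a.val = i.val ∧ (b.val = j.val ∨ b.val + 1 = j.val) := by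
  have h1 : (a = i) ↔ a.val = i.val := Fin.ext_iff
  have h2 : (b.castSucc = j) ↔ b.val = j.val := Fin.ext_iff
  have h3 : (b.succ = j) ↔ b.val + 1 = j.val := Fin.ext_iff
  simp only [dd, h1, h2, h3]
  split_ifs with h4 h5 h6 h6
  · omega
  · simp [h4, h5]
  · simp [h4, h6]
  · simp [h5, h6]
  · simp [h4]

theorem adj_iff (h : Fc m n) (e : Ed m n) (w : Vt m n ⊕ {x : Fc m n // x ≠ h}) :
    (grid (2 * m + 1) (2 * n + 1)).Adj (posE e) (posW h w) ↔
      Inc pp qq (fun (f : {x : Fc m n // x ≠ h}) e => dd f.1 e) e w := by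
  rcases e with ⟨i, j⟩ | ⟨i, j⟩ <;> rcases w with ⟨a, b⟩ | ⟨⟨a, b⟩, hx⟩
  · simp only [grid, posE, posW, Inc, pp, qq, Prod.mk.injEq, Fin.ext_iff, Fin.val_castSucc,
      Fin.val_succ]
    omega
  · simp only [grid, posE, posW, Inc, dd_inl, Fin.ext_iff]
    omega
  · simp only [grid, posE, posW, Inc, pp, qq, Prod.mk.injEq, Fin.ext_iff, Fin.val_castSucc,
      Fin.val_succ]
    omega
  · simp only [grid, posE, posW, Inc, dd_inr, Fin.ext_iff]
    omega

theorem main (h : Fc m n) (hev : Even (m * n)) :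
    4 ∣ Nat.card {M : (grid (2 * m + 1) (2 * n + 1)).Subgraph //
      M.IsMatching ∧ M.verts = {posH h}ᶜ} := by
  classical
  have hm : 0 < m := Fin.pos h.1
  have hn : 0 < n := Fin.pos h.2
  have hmn : 0 < m * n := Nat.mul_pos hm hn
  rw [card_matchings (grid (2 * m + 1) (2 * n + 1)) (posH h) posE (posW h)]
  · have h1 : Nat.card {σ : Ed m n ≃ Vt m n ⊕ {x : Fc m n // x ≠ h} //
        ∀ e, (grid (2 * m + 1) (2 * n + 1)).Adj (posE e) (posW h (σ e))} =
        Nat.card {σ : Ed m n ≃ Vt m n ⊕ {x : Fc m n // x ≠ h} //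
          ∀ e, Inc pp qq (fun (f : {x : Fc m n // x ≠ h}) e => dd f.1 e) e (σ e)} := by
      refine Nat.card_congr (Equiv.subtypeEquivRight fun σ => ?_)
      exact forall_congr' fun e => adj_iff h e (σ e)
    rw [h1]
    refine four_dvd pp qq ?_ _ (dd h) ?_ ?_ ?_ ?_
    · rintro (⟨i, j⟩ | ⟨i, j⟩) h2
      · simp [pp, qq, Fin.ext_iff] at h2
      · simp [pp, qq, Fin.ext_iff] at h2
    · rw [Fintype.card_sum, Fintype.card_prod, Fintype.card_prod, Fintype.card_prod,
        Fintype.card_subtype_compl (fun x => x = h), Fintype.card_subtype_eq, Fintype.card_prod]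
      simp only [Fintype.card_fin]
      zify [hmn]
      ring
    · rw [Fintype.card_subtype_compl (fun x => x = h), Fintype.card_subtype_eq, Fintype.card_prod]
      simp only [Fintype.card_fin]
      obtain ⟨k, hk⟩ := hev
      rw [hk] at hmn ⊢
      exact ⟨k - 1, by omega⟩
    · intro f; exact sum_dd f.1
    · intro z hz
      refine ⟨UU z (h.1.val + 1) (h.2.val + 1), fun f => UU z (f.1.1.val + 1) (f.1.2.val + 1),
        fun e => ?_⟩
      rw [exact_grid z hz e, ← add_sum_erase univ _ (mem_univ h)]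
      congr 1
      rw [sum_subtype (univ.erase h) (p := fun x => x ≠ h) (fun x => by simp)]
  · rintro (⟨i, j⟩ | ⟨i, j⟩) (⟨a, b⟩ | ⟨a, b⟩) h2 <;>
      simp only [posE, Prod.mk.injEq, Fin.ext_iff] at h2
    · congr 2
      · ext; omega
      · ext; omega
    · omega
    · omega
    · congr 2
      · ext; omega
      · ext; omega
  · rintro (⟨i, j⟩ | ⟨⟨i, j⟩, hx⟩) (⟨a, b⟩ | ⟨⟨a, b⟩, hy⟩) h2 <;>
      simp only [posW, Prod.mk.injEq, Fin.ext_iff] at h2
    · congr 2
      · ext; omega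
      · ext; omega
    · omega
    · omega
    · have h3 : i = a := by ext; omega
      have h4 : j = b := by ext; omega
      subst h3 h4
      rfl
  · rintro (⟨i, j⟩ | ⟨i, j⟩) h2 <;> simp only [posE, posH, Prod.mk.injEq, Fin.ext_iff] at h2 <;> omega
  · rintro (⟨i, j⟩ | ⟨⟨i, j⟩, hx⟩) h2 <;> simp only [posW, posH, Prod.mk.injEq, Fin.ext_iff] at h2
    · omega
    · apply hx
      ext
      · change i.val = h.1.val; omega
      · change j.val = h.2.val; omega
  · rintro (⟨i, j⟩ | ⟨i, j⟩) (⟨a, b⟩ | ⟨⟨a, b⟩, hy⟩) h2 <;>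
      simp only [posE, posW, Prod.mk.injEq, Fin.ext_iff] at h2 <;> omega
  · rintro ⟨⟨x, hx⟩, ⟨y, hy⟩⟩ hne
    rcases Nat.even_or_odd' x with ⟨i, rfl | rfl⟩ <;> rcases Nat.even_or_odd' y with ⟨j, rfl | rfl⟩
    · exact Or.inr ⟨Sum.inl (⟨i, by omega⟩, ⟨j, by omega⟩), rfl⟩
    · exact Or.inl ⟨Sum.inl (⟨i, by omega⟩, ⟨j, by omega⟩), rfl⟩
    · exact Or.inl ⟨Sum.inr (⟨i, by omega⟩, ⟨j, by omega⟩), rfl⟩
    · refine Or.inr ⟨Sum.inr ⟨(⟨i, by omega⟩, ⟨j, by omega⟩), ?_⟩, rfl⟩
      intro h3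
      apply hne
      rw [← h3]
      rfl
  · rintro (⟨i, j⟩ | ⟨i, j⟩) (⟨a, b⟩ | ⟨a, b⟩) h2 <;>
      simp only [grid, posE, Fin.ext_iff] at h2 <;> omega
  · rintro (⟨i, j⟩ | ⟨⟨i, j⟩, hx⟩) (⟨a, b⟩ | ⟨⟨a, b⟩, hy⟩) h2 <;>
      simp only [grid, posW, Fin.ext_iff] at h2 <;> omega

end concrete

end Pool.Agent.R26.Hole
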