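import Mathlib

/-!
Matching covered multigraphs, contractions of cuts, bricks and solid bricks.  A multigraph has vertex
type `V`, edge type `E` and the map `ends : E → Sym2 V` which gives the two ends of each edge.
-/

set_option autoImplicit false

namespace Pool.Agent.R26.MG

variable {V E : Type}

/-- The underlying simple graph. -/
def under (ends : E → Sym2 V) : SimpleGraph V := SimpleGraph.fromEdgeSet (Set.range ends)

/-- `M` is a perfect matching: every vertex is an end of exactly one edge of `M`. -/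
def IsPM (ends : E → Sym2 V) (M : Set E) : Prop := ∀ v : V, ∃! e, e ∈ M ∧ v ∈ ends e

/-- At least two vertices, connected, and every edge lies in a perfect matching. -/
def MatchingCovered (ends : E → Sym2 V) : Prop :=
  Nontrivial V ∧ (under ends).Connected ∧ ∀ e, ∃ M, IsPM ends M ∧ e ∈ M

/-- The cut of `X`: the edges with one end in `X` and one end outside of `X`. -/
def cut (ends : E → Sym2 V) (X : Set V) : Set E :=
  {e | (∃ v ∈ ends e, v ∈ X) ∧ ∃ v ∈ ends e, v ∉ X}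

open Classical in
/-- The graph `G/X`: the set `X` is shrunk to one vertex (`none`), and the edges with both ends in `X`
(which would become loops) are deleted. -/
noncomputable def contract (ends : E → Sym2 V) (X : Set V) :
    {e : E // ∃ v ∈ ends e, v ∉ X} → Sym2 (Option {v : V // v ∉ X}) :=
  fun e => (ends e.1).map fun v => if h : v ∈ X then none else some ⟨v, h⟩

/-- The cut of `X` is tight: every perfect matching has exactly one edge in it. -/
def Tight (ends : E → Sym2 V) (X : Set V) : Prop :=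
  ∀ M, IsPM ends M → (M ∩ cut ends X).ncard = 1

/-- The cut of `X` is separating: both contractions are matching covered. -/
def Separating (ends : E → Sym2 V) (X : Set V) : Prop :=
  MatchingCovered (contract ends X) ∧ MatchingCovered (contract ends Xᶜ)

/-- A brick: matching covered, not bipartite, and no nontrivial cut (of a set of odd size) is tight. -/
def Brick (ends : E → Sym2 V) : Prop :=
  MatchingCovered ends ∧ ¬ (under ends).Colorable 2 ∧
    ∀ X : Set V, Odd X.ncard → X.ncard ≠ 1 → Xᶜ.ncard ≠ 1 → ¬ Tight ends X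

/-- Solid: every separating cut (of a set of odd size) is tight. -/
def Solid (ends : E → Sym2 V) : Prop :=
  ∀ X : Set V, Odd X.ncard → Separating ends X → Tight ends X

/-- Every vertex is an end of exactly three edges. -/
def Cubic (ends : E → Sym2 V) : Prop := ∀ v, {e | v ∈ ends e}.ncard = 3

/-- Any two odd cycles have a common vertex. -/
def OddIntercyclic (ends : E → Sym2 V) : Prop :=
  ∀ (u w : V) (p : (under ends).Walk u u) (q : (under ends).Walk w w), p.IsCycle → q.IsCycle →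
    Odd p.length → Odd q.length → ∃ v, v ∈ p.support ∧ v ∈ q.support

theorem none_mem_contract (ends : E → Sym2 V) (X : Set V) (e : {e : E // ∃ v ∈ ends e, v ∉ X}) :
    none ∈ contract ends X e ↔ ∃ v ∈ ends e.1, v ∈ X := by
  unfold contract
  rw [Sym2.mem_map]
  constructor
  · rintro ⟨v, hv, h⟩
    by_cases hX : v ∈ X
    · exact ⟨v, hv, hX⟩
    · rw [dif_neg hX] at h
      exact absurd h (by simp)
  · rintro ⟨v, hv, hX⟩
    exact ⟨v, hv, dif_pos hX⟩

theorem some_mem_contract (ends : E → Sym2 V) (X : Set V) (e : {e : E // ∃ v ∈ ends e, v ∉ X})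
    (v : {v : V // v ∉ X}) : some v ∈ contract ends X e ↔ v.1 ∈ ends e.1 := by
  unfold contract
  rw [Sym2.mem_map]
  constructor
  · rintro ⟨w, hw, h⟩
    by_cases hX : w ∈ X
    · rw [dif_pos hX] at h
      exact absurd h (by simp)
    · rw [dif_neg hX] at h
      have := congrArg Subtype.val (Option.some.inj h)
      change w = v.1 at this
      rw [← this]
      exact hw
  · intro hv
    exact ⟨v.1, hv, dif_neg v.2⟩

theorem cut_compl (ends : E → Sym2 V) (X : Set V) : cut ends Xᶜ = cut ends X := by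
  ext e
  constructor
  · rintro ⟨⟨v, h1, h2⟩, ⟨w, h3, h4⟩⟩
    exact ⟨⟨w, h3, not_not.1 h4⟩, ⟨v, h1, h2⟩⟩
  · rintro ⟨⟨v, h1, h2⟩, ⟨w, h3, h4⟩⟩
    exact ⟨⟨w, h3, h4⟩, ⟨v, h1, not_not.2 h2⟩⟩

/-- If both contractions are matching covered, every edge with an end outside of `X` lies in a perfect
matching with exactly one edge in the cut. -/
theorem sep_aux (ends : E → Sym2 V) (X : Set V) (h1 : MatchingCovered (contract ends X))
    (h2 : MatchingCovered (contract ends Xᶜ)) (e : E) (he : ∃ v ∈ ends e, v ∉ X) :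
    ∃ M, IsPM ends M ∧ e ∈ M ∧ (M ∩ cut ends X).ncard = 1 := by
  obtain ⟨M1, hM1, heM1⟩ := h1.2.2 ⟨e, he⟩
  obtain ⟨f, ⟨hf1, hf2⟩, hf3⟩ := hM1 none
  rw [none_mem_contract] at hf2
  have hfX : ∃ v ∈ ends f.1, v ∉ Xᶜ := by
    obtain ⟨v, hv, hX⟩ := hf2
    exact ⟨v, hv, not_not.2 hX⟩
  obtain ⟨M2, hM2, hfM2⟩ := h2.2.2 ⟨f.1, hfX⟩
  -- the edge of `M2` at the contracted vertex
  have hu2 : ∀ g : {e : E // ∃ v ∈ ends e, v ∉ Xᶜ}, g ∈ M2 → (∃ v ∈ ends g.1, v ∈ Xᶜ) →
      g.1 = f.1 := by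
    intro g hg hgv
    obtain ⟨f', _, hf'⟩ := hM2 none
    have e1 := hf' g ⟨hg, (none_mem_contract _ _ _).2 hgv⟩
    have e2 := hf' ⟨f.1, hfX⟩ ⟨hfM2, (none_mem_contract _ _ _).2 f.2⟩
    rw [e1, ← e2]
  have hu1 : ∀ g : {e : E // ∃ v ∈ ends e, v ∉ X}, g ∈ M1 → (∃ v ∈ ends g.1, v ∈ X) →
      g.1 = f.1 := by
    intro g hg hgv
    rw [hf3 g ⟨hg, (none_mem_contract _ _ _).2 hgv⟩]
  let M : Set E := {g | (∃ h, (⟨g, h⟩ : {e : E // ∃ v ∈ ends e, v ∉ X}) ∈ M1) ∨
    ∃ h, (⟨g, h⟩ : {e : E // ∃ v ∈ ends e, v ∉ Xᶜ}) ∈ M2}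
  have hfM1 : f.1 ∈ M := Or.inl ⟨f.2, hf1⟩
  refine ⟨M, ?_, Or.inl ⟨he, heM1⟩, ?_⟩
  · intro v
    by_cases hv : v ∈ X
    · obtain ⟨g, ⟨hg1, hg2⟩, hg3⟩ := hM2 (some ⟨v, not_not.2 hv⟩)
      rw [some_mem_contract] at hg2
      refine ⟨g.1, ⟨Or.inr ⟨g.2, hg1⟩, hg2⟩, ?_⟩
      rintro g' ⟨⟨h, hg'⟩ | ⟨h, hg'⟩, hvg⟩
      · have e1 := hu1 ⟨g', h⟩ hg' ⟨v, hvg, hv⟩
        change g' = f.1 at e1
        rw [e1]
        have e2 := hg3 ⟨f.1, hfX⟩ ⟨hfM2, (some_mem_contract _ _ _ _).2 (by rw [← e1]; exact hvg)⟩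
        rw [← e2]
      · have e2 := hg3 ⟨g', h⟩ ⟨hg', (some_mem_contract _ _ _ _).2 hvg⟩
        rw [← e2]
    · obtain ⟨g, ⟨hg1, hg2⟩, hg3⟩ := hM1 (some ⟨v, hv⟩)
      rw [some_mem_contract] at hg2
      refine ⟨g.1, ⟨Or.inl ⟨g.2, hg1⟩, hg2⟩, ?_⟩
      rintro g' ⟨⟨h, hg'⟩ | ⟨h, hg'⟩, hvg⟩
      · have e2 := hg3 ⟨g', h⟩ ⟨hg', (some_mem_contract _ _ _ _).2 hvg⟩
        rw [← e2]
      · have e1 := hu2 ⟨g', h⟩ hg' ⟨v, hvg, hv⟩
        change g' = f.1 at e1
        rw [e1]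
        have e2 := hg3 f ⟨hf1, (some_mem_contract _ _ _ _).2 (by rw [← e1]; exact hvg)⟩
        rw [← e2]
  · rw [Set.ncard_eq_one]
    refine ⟨f.1, ?_⟩
    ext g
    rw [Set.mem_singleton_iff]
    constructor
    · rintro ⟨⟨h, hg⟩ | ⟨h, hg⟩, hc1, hc2⟩
      · exact hu1 ⟨g, h⟩ hg hc1
      · exact hu2 ⟨g, h⟩ hg hc2
    · intro h
      rw [h]
      exact ⟨hfM1, hf2, f.2⟩

/-- If the cut of `X` is separating, every edge lies in a perfect matching with exactly one edge in the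
cut. -/
theorem sep_imp (ends : E → Sym2 V) (X : Set V) (h : Separating ends X) (e : E) :
    ∃ M, IsPM ends M ∧ e ∈ M ∧ (M ∩ cut ends X).ncard = 1 := by
  by_cases he : ∃ v ∈ ends e, v ∉ X
  · exact sep_aux ends X h.1 h.2 e he
  · have he' : ∃ v ∈ ends e, v ∉ Xᶜ := by
      push Not at he
      obtain ⟨a, ha⟩ : ∃ a, a ∈ ends e := by
        induction ends e using Sym2.inductionOn with
        | hf a b => exact ⟨a, Sym2.mem_mk_left a b⟩
      exact ⟨a, ha, not_not.2 (he a ha)⟩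
    have h3 : MatchingCovered (contract ends Xᶜᶜ) := by rw [compl_compl]; exact h.1
    obtain ⟨M, h4, h5, h6⟩ := sep_aux ends Xᶜ h.2 h3 e he'
    rw [cut_compl] at h6
    exact ⟨M, h4, h5, h6⟩

end Pool.Agent.R26.MG
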