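import Mathlib

/-!
# Counting in a list by means of binary masks
-/

set_option autoImplicit false

namespace Pool.Agent.R26.Mask

/-- The number whose binary digits are the values of `q` on the list. -/
def mask (q : ℕ → Bool) : List ℕ → ℕ
  | [] => 0
  | x :: t => 2 * mask q t + (q x).toNat

/-- The mask of a concatenation, computed blockwise. -/
def maskC (q : ℕ → Bool) : List (List ℕ) → ℕ
  | [] => 0
  | l :: t => maskC q t * 2 ^ l.length + mask q l

/-- The number of binary digits `1`. -/
def pc (x : ℕ) : ℕ := x.bitIndices.length

/-- `x` has exactly `k` binary digits `1`. -/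
def exactly : ℕ → ℕ → Bool
  | 0, x => Nat.beq x 0
  | k + 1, x => bif Nat.beq x 0 then false else exactly k (Nat.land x (Nat.sub x 1))

lemma pc_two_mul_add (x : ℕ) (b : Bool) : pc (2 * x + b.toNat) = pc x + b.toNat := by
  unfold pc
  cases b
  · simp [Nat.bitIndices_two_mul]
  · simp [Nat.bitIndices_two_mul_add_one]

lemma mask_append (q : ℕ → Bool) (l t : List ℕ) :
    mask q (l ++ t) = mask q t * 2 ^ l.length + mask q l := by
  induction l with
  | nil => simp [mask]
  | cons x l ih =>
    rw [List.cons_append, mask, mask, ih, List.length_cons, pow_succ]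
    ring

lemma maskC_eq (q : ℕ → Bool) (L : List (List ℕ)) : maskC q L = mask q L.flatten := by
  induction L with
  | nil => rfl
  | cons l t ih => rw [maskC, List.flatten_cons, mask_append, ih]

lemma pc_mask (q : ℕ → Bool) (l : List ℕ) : pc (mask q l) = l.countP q := by
  induction l with
  | nil => simp [mask, pc]
  | cons x l ih =>
    rw [mask, pc_two_mul_add, ih, List.countP_cons]
    cases q x <;> simp

lemma testBit_two_mul_add (x : ℕ) (b : Bool) (i : ℕ) :
    (2 * x + b.toNat).testBit i = if i = 0 then b else x.testBit (i - 1) := by
  cases i with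
  | zero => cases b <;> simp
  | succ i =>
    rw [if_neg (Nat.succ_ne_zero i), Nat.testBit_succ, Nat.add_sub_cancel]
    congr 1
    cases b <;> simp <;> omega

lemma mask_and (q r : ℕ → Bool) (l : List ℕ) :
    mask q l &&& mask r l = mask (fun x => q x && r x) l := by
  induction l with
  | nil => simp [mask]
  | cons x l ih =>
    apply Nat.eq_of_testBit_eq
    intro i
    rw [Nat.testBit_land, mask, mask, mask, testBit_two_mul_add, testBit_two_mul_add,
      testBit_two_mul_add, ← ih, Nat.testBit_land]
    split_ifs <;> rfl

lemma mask_or (q r : ℕ → Bool) (l : List ℕ) :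
    mask q l ||| mask r l = mask (fun x => q x || r x) l := by
  induction l with
  | nil => simp [mask]
  | cons x l ih =>
    apply Nat.eq_of_testBit_eq
    intro i
    rw [Nat.testBit_lor, mask, mask, mask, testBit_two_mul_add, testBit_two_mul_add,
      testBit_two_mul_add, ← ih, Nat.testBit_lor]
    split_ifs <;> rfl

lemma pc_low (x : ℕ) (hx : x ≠ 0) : pc (x &&& (x - 1)) + 1 = pc x := by
  induction x using Nat.strong_induction_on with
  | _ x ih =>
    rcases Nat.even_or_odd' x with ⟨n, h | h⟩
    · have hn : n ≠ 0 := by rintro rfl; simp at h; exact hx h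
      have h1 : x = 2 * n + (false : Bool).toNat := by simp [h]
      have h2 : x - 1 = 2 * (n - 1) + (true : Bool).toNat := by
        rw [Bool.toNat_true]; omega
      have h3 : x &&& (x - 1) = 2 * (n &&& (n - 1)) + (false : Bool).toNat := by
        apply Nat.eq_of_testBit_eq
        intro i
        rw [h2, h1, Nat.testBit_land, testBit_two_mul_add, testBit_two_mul_add,
          testBit_two_mul_add, Nat.testBit_land]
        split_ifs <;> simp
      have h4 := ih n (by omega) hn
      rw [h3, pc_two_mul_add, h1, pc_two_mul_add]
      simpa using h4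
    · have h1 : x = 2 * n + (true : Bool).toNat := by simp [h]
      have h2 : x - 1 = 2 * n + (false : Bool).toNat := by
        rw [Bool.toNat_false]; omega
      have h3 : x &&& (x - 1) = 2 * n + (false : Bool).toNat := by
        apply Nat.eq_of_testBit_eq
        intro i
        rw [h2, h1, Nat.testBit_land, testBit_two_mul_add, testBit_two_mul_add]
        split_ifs <;> simp
      rw [h3, pc_two_mul_add, h1, pc_two_mul_add]
      simp

lemma exactly_pc (k x : ℕ) (h : exactly k x = true) : pc x = k := by
  induction k generalizing x with
  | zero =>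
    have : x = 0 := Nat.eq_of_beq_eq_true h
    simp [this, pc]
  | succ k ih =>
    rw [exactly] at h
    have hx : x ≠ 0 := by
      rintro rfl
      simp at h
    have hb : Nat.beq x 0 = false := by
      cases hb : Nat.beq x 0 with
      | false => rfl
      | true => exact absurd (Nat.eq_of_beq_eq_true hb) hx
    rw [hb, cond_false] at h
    have := ih _ h
    rw [← pc_low x hx]
    exact congrArg (· + 1) this

/-- Counting: if the mask has exactly `k` digits `1`, then `k` elements of the list satisfy `q`. -/
lemma countP_of_exactly (q : ℕ → Bool) (l : List ℕ) (k : ℕ) (h : exactly k (mask q l) = true) :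
    l.countP q = k := by
  rw [← pc_mask, exactly_pc k _ h]

end Pool.Agent.R26.Mask
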