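import Pool.Agent.R26.MG
import Pool.Agent.R26.Mask

/-!
A cubic brick with twelve vertices which is solid and has two disjoint odd cycles.
-/

set_option autoImplicit false

namespace Pool.Agent.R26.SolidCert

open Pool.Agent.R26.MG Pool.Agent.R26.Mask

/-- The ends of the eighteen edges. -/
def gends : Fin 18 → Sym2 (Fin 12) :=
  ![s(0, 3), s(0, 8), s(0, 10), s(1, 3), s(1, 4), s(1, 9), s(2, 3), s(2, 5), s(2, 9), s(4, 5),
    s(4, 11), s(5, 7), s(6, 7), s(6, 8), s(6, 11), s(7, 10), s(8, 9), s(10, 11)]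

def A (e : ℕ) : ℕ := [0, 0, 0, 1, 1, 1, 2, 2, 2, 4, 4, 5, 6, 6, 6, 7, 8, 10].getD e 0
def B (e : ℕ) : ℕ := [3, 8, 10, 3, 4, 9, 3, 5, 9, 5, 11, 7, 7, 8, 11, 10, 9, 11].getD e 0

theorem A_lt (e : Fin 18) : A e.val < 12 := by revert e; decide
theorem B_lt (e : Fin 18) : B e.val < 12 := by revert e; decide

theorem gends_eq (e : Fin 18) : gends e = s(⟨A e.val, A_lt e⟩, ⟨B e.val, B_lt e⟩) := by
  revert e; decide

theorem mem_gends (v : Fin 12) (e : Fin 18) : v ∈ gends e ↔ v.val = A e.val ∨ v.val = B e.val := by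
  rw [gends_eq, Sym2.mem_iff, Fin.ext_iff, Fin.ext_iff]

/-- The masks of the twelve perfect matchings. -/
def pms : List ℕ := [200849, 114833, 141585, 42145, 135946, 49930, 135778, 49762, 70796, 11532,
  84052, 11364]

theorem enum :
    ∀ a0 ∈ ([0, 1, 2] : List ℕ),
    ∀ a1 ∈ ([3, 4, 5] : List ℕ),
    ∀ a2 ∈ ([6, 7, 8] : List ℕ),
    ∀ a3 ∈ ([0, 3, 6] : List ℕ), ((a0 == 0) = (a3 == 0)) ∧ ((a1 == 3) = (a3 == 3)) ∧ ((a2 == 6) = (a3 == 6)) →
    ∀ a4 ∈ ([4, 9, 10] : List ℕ), ((a1 == 4) = (a4 == 4)) →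
    ∀ a5 ∈ ([7, 9, 11] : List ℕ), ((a2 == 7) = (a5 == 7)) ∧ ((a4 == 9) = (a5 == 9)) →
    ∀ a6 ∈ ([12, 13, 14] : List ℕ),
    ∀ a7 ∈ ([11, 12, 15] : List ℕ), ((a5 == 11) = (a7 == 11)) ∧ ((a6 == 12) = (a7 == 12)) →
    ∀ a8 ∈ ([1, 13, 16] : List ℕ), ((a0 == 1) = (a8 == 1)) ∧ ((a6 == 13) = (a8 == 13)) →
    ∀ a9 ∈ ([5, 8, 16] : List ℕ), ((a1 == 5) = (a9 == 5)) ∧ ((a2 == 8) = (a9 == 8)) ∧ ((a8 == 16) = (a9 == 16)) →
    ∀ a10 ∈ ([2, 15, 17] : List ℕ), ((a0 == 2) = (a10 == 2)) ∧ ((a7 == 15) = (a10 == 15)) →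
    ∀ a11 ∈ ([10, 14, 17] : List ℕ), ((a4 == 10) = (a11 == 10)) ∧ ((a6 == 14) = (a11 == 14)) ∧ ((a10 == 17) = (a11 == 17)) →
    (2 ^ a0 ||| 2 ^ a1 ||| 2 ^ a2 ||| 2 ^ a3 ||| 2 ^ a4 ||| 2 ^ a5 ||| 2 ^ a6 ||| 2 ^ a7 ||| 2 ^ a8 ||| 2 ^ a9 ||| 2 ^ a10 ||| 2 ^ a11) ∈ pms := by
  decide +kernel

/-- The mask of the cut of a set of vertices, given by its mask. -/
def cm (x : ℕ) : ℕ := mask (fun e => (x.testBit (A e)).xor (x.testBit (B e))) (List.range 18)

/-- the check for one set -/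
def chk (x : ℕ) : Bool :=
  (List.range 18).any fun e => pms.all fun P =>
    (! P.testBit e) || exactly 3 (Nat.land P (cm x)) || exactly 5 (Nat.land P (cm x))

def sz (x : ℕ) : Bool := exactly 3 x || exactly 5 x || exactly 7 x || exactly 9 x

theorem check : ∀ a < 64, ∀ b < 64, (sz (64 * a + b) = true → chk (64 * a + b) = true) := by
  decide +kernel

section lists

theorem mask_testBit (q : ℕ → Bool) (l : List ℕ) (i : ℕ) :
    (mask q l).testBit i = ((l[i]?).map q).getD false := by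
  induction l generalizing i with
  | nil => simp [mask]
  | cons x l ih =>
    rw [mask, testBit_two_mul_add]
    cases i with
    | zero => simp
    | succ i => simp [ih]

theorem mask_range_testBit (q : ℕ → Bool) (n i : ℕ) :
    (mask q (List.range n)).testBit i = (decide (i < n) && q i) := by
  rw [mask_testBit]
  by_cases h : i < n
  · rw [List.getElem?_eq_getElem (by simpa using h)]
    simp [h]
  · rw [List.getElem?_eq_none (by simpa using h)]
    simp [h]

theorem mask_lt (q : ℕ → Bool) (l : List ℕ) : mask q l < 2 ^ l.length := by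
  induction l with
  | nil => simp [mask]
  | cons x l ih =>
    rw [mask, List.length_cons, pow_succ]
    have : (q x).toNat ≤ 1 := by cases q x <;> simp
    omega

theorem mask_congr (q r : ℕ → Bool) (l : List ℕ) (h : ∀ x ∈ l, q x = r x) : mask q l = mask r l := by
  induction l with
  | nil => rfl
  | cons x l ih =>
    rw [mask, mask, ih fun y hy => h y (List.mem_cons_of_mem _ hy), h x List.mem_cons_self]

theorem exactly_of_pc (k x : ℕ) (h : pc x = k) : exactly k x = true := by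
  induction k generalizing x with
  | zero =>
    have : x = 0 := by
      by_contra hx
      have := pc_low x hx
      omega
    subst this
    rfl
  | succ k ih =>
    have hx : x ≠ 0 := by
      rintro rfl
      simp [pc] at h
    have hb : Nat.beq x 0 = false := by
      cases hb : Nat.beq x 0 with
      | false => rfl
      | true => exact absurd (Nat.eq_of_beq_eq_true hb) hx
    rw [exactly, hb, cond_false]
    refine ih _ ?_
    have := pc_low x hx
    rw [h] at this
    exact Nat.succ_injective this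

open Classical in
theorem ncard_eq {n : ℕ} (S : Set (Fin n)) :
    S.ncard = (List.range n).countP fun e => decide (∃ h : e < n, (⟨e, h⟩ : Fin n) ∈ S) := by
  rw [← List.map_coe_finRange_eq_range, List.countP_map, List.countP_eq_length_filter,
    ← List.toFinset_card_of_nodup ((List.nodup_finRange n).filter _), List.toFinset_filter,
    List.toFinset_finRange, Set.ncard_eq_toFinset_card']
  congr 1
  ext i
  simp

end lists

section pm

theorem uniq {M : Set (Fin 18)} (hM : IsPM gends M) {μ : Fin 12 → Fin 18}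
    (hμ : ∀ v, μ v ∈ M ∧ v ∈ gends (μ v)) (v : Fin 12) (e : Fin 18) (he : e ∈ M) (hv : v ∈ gends e) :
    μ v = e :=
  (hM v).unique (hμ v) ⟨he, hv⟩

theorem compat {M : Set (Fin 18)} (hM : IsPM gends M) {μ : Fin 12 → Fin 18}
    (hμ : ∀ v, μ v ∈ M ∧ v ∈ gends (μ v)) (v w : Fin 12) (e : Fin 18) (hv : v ∈ gends e)
    (hw : w ∈ gends e) : ((μ v).val == e.val) = ((μ w).val == e.val) := by
  have key : ∀ v w : Fin 12, v ∈ gends e → w ∈ gends e → (μ v).val = e.val → (μ w).val = e.val := by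
    intro v w _ hw h
    have h1 : μ v = e := Fin.ext h
    rw [uniq hM hμ w e (by rw [← h1]; exact (hμ v).1) hw]
  rw [Bool.eq_iff_iff, beq_iff_eq, beq_iff_eq]
  exact ⟨key v w hv hw, key w v hw hv⟩

theorem inc_mem (v : Fin 12) (e : Fin 18) (h : v ∈ gends e) : e.val ∈
    ([[0,1,2],[3,4,5],[6,7,8],[0,3,6],[4,9,10],[7,9,11],[12,13,14],[11,12,15],[1,13,16],[5,8,16],
      [2,15,17],[10,14,17]] : List (List ℕ)).getD v.val [] := by
  rw [mem_gends] at h
  revert v e
  decide

open Classical in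
theorem pm_mask (M : Set (Fin 18)) (hM : IsPM gends M) :
    mask (fun e => decide (∃ h : e < 18, (⟨e, h⟩ : Fin 18) ∈ M)) (List.range 18) ∈ pms := by
  have h1 : ∀ v, ∃ e, e ∈ M ∧ v ∈ gends e := fun v => (hM v).exists
  choose μ hμ using h1
  have h2 := enum (μ 0).val (inc_mem 0 _ (hμ 0).2)
    (μ 1).val (inc_mem 1 _ (hμ 1).2)
    (μ 2).val (inc_mem 2 _ (hμ 2).2)
    (μ 3).val (inc_mem 3 _ (hμ 3).2)
    ⟨compat hM hμ 0 3 0 (by decide) (by decide), compat hM hμ 1 3 3 (by decide) (by decide), compat hM hμ 2 3 6 (by decide) (by decide)⟩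
    (μ 4).val (inc_mem 4 _ (hμ 4).2)
    (compat hM hμ 1 4 4 (by decide) (by decide))
    (μ 5).val (inc_mem 5 _ (hμ 5).2)
    ⟨compat hM hμ 2 5 7 (by decide) (by decide), compat hM hμ 4 5 9 (by decide) (by decide)⟩
    (μ 6).val (inc_mem 6 _ (hμ 6).2)
    (μ 7).val (inc_mem 7 _ (hμ 7).2)
    ⟨compat hM hμ 5 7 11 (by decide) (by decide), compat hM hμ 6 7 12 (by decide) (by decide)⟩
    (μ 8).val (inc_mem 8 _ (hμ 8).2)
    ⟨compat hM hμ 0 8 1 (by decide) (by decide), compat hM hμ 6 8 13 (by decide) (by decide)⟩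
    (μ 9).val (inc_mem 9 _ (hμ 9).2)
    ⟨compat hM hμ 1 9 5 (by decide) (by decide), compat hM hμ 2 9 8 (by decide) (by decide), compat hM hμ 8 9 16 (by decide) (by decide)⟩
    (μ 10).val (inc_mem 10 _ (hμ 10).2)
    ⟨compat hM hμ 0 10 2 (by decide) (by decide), compat hM hμ 7 10 15 (by decide) (by decide)⟩
    (μ 11).val (inc_mem 11 _ (hμ 11).2)
    ⟨compat hM hμ 4 11 10 (by decide) (by decide), compat hM hμ 6 11 14 (by decide) (by decide), compat hM hμ 10 11 17 (by decide) (by decide)⟩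
   
  convert h2 using 1
  apply Nat.eq_of_testBit_eq
  intro i
  rw [mask_range_testBit]
  simp only [Nat.testBit_or, Nat.testBit_two_pow]
  rw [Bool.eq_iff_iff]
  simp only [Bool.and_eq_true, Bool.or_eq_true, decide_eq_true_eq]
  constructor
  · rintro ⟨_, hi, hiM⟩
    have h3 : ∃ v, (μ v).val = i := by
      refine ⟨⟨A i, A_lt ⟨i, hi⟩⟩, ?_⟩
      rw [uniq hM hμ _ ⟨i, hi⟩ hiM ((mem_gends _ _).2 (Or.inl rfl))]
    obtain ⟨v, hv⟩ := h3
    fin_cases v <;> simp_all
  · intro h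
    have h3 : ∃ v, (μ v).val = i := by
      rcases h with ((((((((((h | h) | h) | h) | h) | h) | h) | h) | h) | h) | h) | h
      exacts [⟨0, h⟩, ⟨1, h⟩, ⟨2, h⟩, ⟨3, h⟩, ⟨4, h⟩, ⟨5, h⟩, ⟨6, h⟩, ⟨7, h⟩, ⟨8, h⟩, ⟨9, h⟩, ⟨10, h⟩,
        ⟨11, h⟩]
    obtain ⟨v, rfl⟩ := h3
    exact ⟨(μ v).2, (μ v).2, (hμ v).1⟩

open Classical in
theorem key (X : Set (Fin 12)) (hodd : Odd X.ncard) (h1 : X.ncard ≠ 1) (h2 : Xᶜ.ncard ≠ 1) :
    ∃ e, ∀ M, IsPM gends M → e ∈ M → (M ∩ cut gends X).ncard ≠ 1 := by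
  let qx : ℕ → Bool := fun v => decide (∃ h : v < 12, (⟨v, h⟩ : Fin 12) ∈ X)
  let x := mask qx (List.range 12)
  have hpc : pc x = X.ncard := by
    rw [ncard_eq, ← pc_mask]
  have hle : X.ncard + Xᶜ.ncard = 12 := by
    rw [Set.ncard_add_ncard_compl, Nat.card_eq_fintype_card, Fintype.card_fin]
  have hsz : sz x = true := by
    obtain ⟨k, hk⟩ := hodd
    have hk5 : k = 1 ∨ k = 2 ∨ k = 3 ∨ k = 4 := by omega
    unfold sz
    simp only [Bool.or_eq_true]
    rcases hk5 with rfl | rfl | rfl | rfl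
    · exact Or.inl (Or.inl (Or.inl (exactly_of_pc _ _ (by omega))))
    · exact Or.inl (Or.inl (Or.inr (exactly_of_pc _ _ (by omega))))
    · exact Or.inl (Or.inr (exactly_of_pc _ _ (by omega)))
    · exact Or.inr (exactly_of_pc _ _ (by omega))
  have hx : x < 4096 := by
    have := mask_lt qx (List.range 12)
    simpa using this
  have hchk : chk x = true := by
    have h3 := check (x / 64) (by omega) (x % 64) (Nat.mod_lt _ (by norm_num))
    rw [Nat.div_add_mod] at h3
    exact h3 hsz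
  unfold chk at hchk
  rw [List.any_eq_true] at hchk
  obtain ⟨e, he, hall⟩ := hchk
  rw [List.mem_range] at he
  refine ⟨⟨e, he⟩, fun M hM heM => ?_⟩
  rw [List.all_eq_true] at hall
  have h3 := hall _ (pm_mask M hM)
  rw [mask_range_testBit] at h3
  have h4 : (decide (e < 18) && decide (∃ h : e < 18, (⟨e, h⟩ : Fin 18) ∈ M)) = true := by
    rw [Bool.and_eq_true, decide_eq_true_eq, decide_eq_true_eq]
    exact ⟨he, he, heM⟩
  rw [h4] at h3
  have hq : ∀ v, v < 12 → x.testBit v = qx v := by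
    intro v hv
    rw [mask_range_testBit]
    simp [hv]
  have hcm : cm x = mask (fun e => (qx (A e)).xor (qx (B e))) (List.range 18) := by
    refine mask_congr _ _ _ fun e he => ?_
    rw [List.mem_range] at he
    rw [hq _ (A_lt ⟨e, he⟩), hq _ (B_lt ⟨e, he⟩)]
  have hland : Nat.land (mask (fun e => decide (∃ h : e < 18, (⟨e, h⟩ : Fin 18) ∈ M)) (List.range 18))
      (cm x) = mask (fun e => decide (∃ h : e < 18, (⟨e, h⟩ : Fin 18) ∈ M) &&
        (qx (A e)).xor (qx (B e))) (List.range 18) := by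
    rw [hcm]
    exact mask_and _ _ _
  have hcount : (M ∩ cut gends X).ncard = pc (Nat.land (mask (fun e =>
      decide (∃ h : e < 18, (⟨e, h⟩ : Fin 18) ∈ M)) (List.range 18)) (cm x)) := by
    rw [hland, pc_mask, ncard_eq]
    refine List.countP_congr fun e he => ?_
    rw [List.mem_range] at he
    simp only [decide_eq_true_eq, Bool.and_eq_true]
    have h5 : ((qx (A e)).xor (qx (B e)) = true) ↔ (⟨e, he⟩ : Fin 18) ∈ cut gends X := by
      have hA : qx (A e) = true ↔ (⟨A e, A_lt ⟨e, he⟩⟩ : Fin 12) ∈ X := by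
        simp only [qx, decide_eq_true_eq]
        exact ⟨fun ⟨_, h⟩ => h, fun h => ⟨A_lt ⟨e, he⟩, h⟩⟩
      have hB : qx (B e) = true ↔ (⟨B e, B_lt ⟨e, he⟩⟩ : Fin 12) ∈ X := by
        simp only [qx, decide_eq_true_eq]
        exact ⟨fun ⟨_, h⟩ => h, fun h => ⟨B_lt ⟨e, he⟩, h⟩⟩
      have hmem : ∀ v : Fin 12, v ∈ gends ⟨e, he⟩ ↔ v = ⟨A e, A_lt ⟨e, he⟩⟩ ∨ v = ⟨B e, B_lt ⟨e, he⟩⟩ := by
        intro v
        rw [mem_gends, Fin.ext_iff, Fin.ext_iff]
      unfold cut
      simp only [Set.mem_ofPred_eq, hmem, or_and_right, exists_or, exists_eq_left]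
      rw [← hA, ← hB]
      cases qx (A e) <;> cases qx (B e) <;> simp
    rw [h5]
    constructor
    · rintro ⟨_, h6, h7⟩
      exact ⟨⟨he, h6⟩, h7⟩
    · rintro ⟨⟨_, h6⟩, h7⟩
      exact ⟨he, h6, h7⟩
  rw [hcount]
  simp only [Bool.not_true, Bool.false_or, Bool.or_eq_true] at h3
  rcases h3 with h3 | h3
  · rw [exactly_pc _ _ h3]; norm_num
  · rw [exactly_pc _ _ h3]; norm_num

/-- the edge with index `e` joins its ends -/
theorem adj (e : Fin 18) : (under gends).Adj ⟨A e.val, A_lt e⟩ ⟨B e.val, B_lt e⟩ := by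
  unfold under
  rw [SimpleGraph.fromEdgeSet_adj]
  refine ⟨⟨e, gends_eq e⟩, ?_⟩
  revert e; decide

theorem connected : (under gends).Connected := by
  have h : ∀ v, (under gends).Reachable 0 v := by
    have r0 : (under gends).Reachable 0 0 := SimpleGraph.Reachable.refl 0
    have r3 : (under gends).Reachable 0 3 := (adj 0).reachable
    have r8 : (under gends).Reachable 0 8 := (adj 1).reachable
    have r10 : (under gends).Reachable 0 10 := (adj 2).reachable
    have r1 : (under gends).Reachable 0 1 := r3.trans (adj 3).symm.reachable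
    have r4 : (under gends).Reachable 0 4 := r1.trans (adj 4).reachable
    have r9 : (under gends).Reachable 0 9 := r1.trans (adj 5).reachable
    have r2 : (under gends).Reachable 0 2 := r3.trans (adj 6).symm.reachable
    have r5 : (under gends).Reachable 0 5 := r2.trans (adj 7).reachable
    have r11 : (under gends).Reachable 0 11 := r4.trans (adj 10).reachable
    have r7 : (under gends).Reachable 0 7 := r5.trans (adj 11).reachable
    have r6 : (under gends).Reachable 0 6 := r7.trans (adj 12).symm.reachable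
    intro v
    fin_cases v
    exacts [r0, r1, r2, r3, r4, r5, r6, r7, r8, r9, r10, r11]
  have : Nonempty (Fin 12) := ⟨0⟩
  exact ⟨fun u v => (h u).symm.trans (h v)⟩

/-- The edges of the twelve perfect matchings. -/
def pmE (i : Fin 12) : Finset (Fin 18) :=
  Finset.univ.filter fun e => (pms.getD i.val 0).testBit e.val = true

theorem pmE_isPM (i : Fin 12) : IsPM gends {e | e ∈ pmE i} := by
  intro v
  have h : ∃ e, (e ∈ pmE i ∧ v ∈ gends e) ∧ ∀ e', (e' ∈ pmE i ∧ v ∈ gends e') → e' = e := by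
    simp only [mem_gends]
    revert i v
    decide +kernel
  exact h

theorem covered : MatchingCovered gends := by
  refine ⟨inferInstance, connected, fun e => ?_⟩
  have h : ∀ e : Fin 18, ∃ i, e ∈ pmE i := by decide +kernel
  obtain ⟨i, hi⟩ := h e
  exact ⟨_, pmE_isPM i, hi⟩

theorem not_bip : ¬ (under gends).Colorable 2 := by
  rintro ⟨c⟩
  have h1 : c 0 ≠ c 3 := c.valid (adj 0)
  have h2 : c 1 ≠ c 3 := c.valid (adj 3)
  have h3 : c 1 ≠ c 9 := c.valid (adj 5)
  have h4 : c 8 ≠ c 9 := c.valid (adj 16)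
  have h5 : c 0 ≠ c 8 := c.valid (adj 1)
  generalize c 0 = a0 at *
  generalize c 3 = a3 at *
  generalize c 1 = a1 at *
  generalize c 9 = a9 at *
  generalize c 8 = a8 at *
  revert a0 a3 a1 a9 a8
  decide

theorem cubic : Cubic gends := by
  classical
  intro v
  rw [Set.ncard_eq_toFinset_card']
  have h : ∀ v : Fin 12, (Finset.univ.filter fun e : Fin 18 => v.val = A e.val ∨ v.val = B e.val).card = 3 := by
    decide
  rw [← h v]
  congr 1
  ext e
  simp [mem_gends]

theorem brick : Brick gends := by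
  refine ⟨covered, not_bip, fun X h1 h2 h3 ht => ?_⟩
  obtain ⟨e, he⟩ := key X h1 h2 h3
  obtain ⟨M, hM, heM⟩ := covered.2.2 e
  exact he M hM heM (ht M hM)

/-- Trivial cuts are tight. -/
theorem tight_one (X : Set (Fin 12)) (h : X.ncard = 1) : Tight gends X := by
  obtain ⟨v, rfl⟩ := Set.ncard_eq_one.1 h
  intro M hM
  obtain ⟨e, ⟨h1, h2⟩, h3⟩ := hM v
  rw [Set.ncard_eq_one]
  refine ⟨e, ?_⟩
  ext e'
  rw [Set.mem_singleton_iff]
  constructor
  · rintro ⟨h4, ⟨w, h5, h6⟩, _⟩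
    rw [Set.mem_singleton_iff] at h6
    rw [h6] at h5
    exact h3 e' ⟨h4, h5⟩
  · rintro rfl
    refine ⟨h1, ⟨v, h2, rfl⟩, ?_⟩
    have key : ∀ (v : Fin 12) (e : Fin 18), (v.val = A e.val ∨ v.val = B e.val) →
        ∃ w : Fin 12, (w.val = A e.val ∨ w.val = B e.val) ∧ w ≠ v := by decide
    rw [mem_gends] at h2
    obtain ⟨w, hw, hne⟩ := key v e' h2
    exact ⟨w, (mem_gends w e').2 hw, hne⟩

theorem solid : Solid gends := by
  intro X h1 h2
  by_cases h3 : X.ncard = 1
  · exact tight_one X h3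
  by_cases h4 : Xᶜ.ncard = 1
  · have := tight_one Xᶜ h4
    intro M hM
    rw [← cut_compl]
    exact this M hM
  · exfalso
    obtain ⟨e, he⟩ := key X h1 h3 h4
    obtain ⟨M, hM, heM, hc⟩ := sep_imp gends X h2 e
    exact he M hM heM hc

/-- the two cycles -/
theorem not_intercyclic : ¬ OddIntercyclic gends := by
  intro h
  have a1 : (under gends).Adj 0 3 := adj 0
  have a2 : (under gends).Adj 3 1 := (adj 3).symm
  have a3 : (under gends).Adj 1 9 := adj 5
  have a4 : (under gends).Adj 9 8 := (adj 16).symm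
  have a5 : (under gends).Adj 8 0 := (adj 1).symm
  have b1 : (under gends).Adj 4 5 := adj 9
  have b2 : (under gends).Adj 5 7 := adj 11
  have b3 : (under gends).Adj 7 10 := adj 15
  have b4 : (under gends).Adj 10 11 := adj 17
  have b5 : (under gends).Adj 11 4 := (adj 10).symm
  let p : (under gends).Walk 0 0 := .cons a1 (.cons a2 (.cons a3 (.cons a4 (.cons a5 .nil))))
  let q : (under gends).Walk 4 4 := .cons b1 (.cons b2 (.cons b3 (.cons b4 (.cons b5 .nil))))
  have hp : p.IsCycle := by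
    rw [SimpleGraph.Walk.cons_isCycle_iff]
    refine ⟨?_, ?_⟩
    · rw [SimpleGraph.Walk.isPath_def]
      simp only [SimpleGraph.Walk.support_cons, SimpleGraph.Walk.support_nil]
      decide
    · simp only [SimpleGraph.Walk.edges_cons, SimpleGraph.Walk.edges_nil]
      decide
  have hq : q.IsCycle := by
    rw [SimpleGraph.Walk.cons_isCycle_iff]
    refine ⟨?_, ?_⟩
    · rw [SimpleGraph.Walk.isPath_def]
      simp only [SimpleGraph.Walk.support_cons, SimpleGraph.Walk.support_nil]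
      decide
    · simp only [SimpleGraph.Walk.edges_cons, SimpleGraph.Walk.edges_nil]
      decide
  obtain ⟨v, h1, h2⟩ := h 0 4 p q hp hq ⟨2, rfl⟩ ⟨2, rfl⟩
  have h3 : v ∈ ([0, 3, 1, 9, 8, 0] : List (Fin 12)) := h1
  have h4 : v ∈ ([4, 5, 7, 10, 11, 4] : List (Fin 12)) := h2
  have h5 : ∀ v : Fin 12, v ∈ ([0, 3, 1, 9, 8, 0] : List (Fin 12)) →
      v ∈ ([4, 5, 7, 10, 11, 4] : List (Fin 12)) → False := by decide
  exact h5 v h3 h4

end pm

end Pool.Agent.R26.SolidCert
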